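import Pool.Agent.R426.QK.Stm
import Pool.Agent.N869.QT.G.Stm

/-!
# Project QT (helper869): coloured sets of primes of `ℚ(√-7)`

`RR = ℤ[(1 + √-7) / 2]`. `SA X` is the set of all finite sets `S` of primary primes with `∏ nrm π ≤ X`
(the squarefree conductors prime to `14`). `Q` is a finite set of colours, `γ : RR → Q` a colouring of the
primes, `E : I → Finset Q` a finite family of different nonempty sets of colours. For `S ∈ SA X` the
subset `sys γ E S a` of `S` consists of the primes with colour in `E a`. For the multiquadratic extensions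
`K(√D_1, …, √D_n)` of conductor `S` the colour of `π` is the set of the `i` with `π ∣ D_i`, and the
quadratic twist by `∏_{i ∈ T} D_i` belongs to the colours that meet `T` in an odd number of elements.

FINAL (`G.SQC`, `G.MQ`): for almost all `S` (natural density one) the proportion of the colourings of `S`
in the class (all `∏_{π ∈ sys γ E S a} π = 1 mod 4`) for which all the sets `sys γ E S a` are good (`Gd` of
`QK/Stm.lean`) is close to `c2 ^ #I`.

Statements of the parts, after `Pool/Agent/R426/QK/Stm.lean` and `Pool/Agent/R426/QJ/Stm.lean`.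
-/

set_option autoImplicit false
set_option linter.unusedVariables false

open scoped Classical

namespace Pool.Agent.N869.QT

open Finset
open Pool.Agent.Y698
open Pool.Agent.Y698.SG hiding PD
open Pool.Agent.R426.QK
open Pool.Agent.Y703.CX (jj XX eL zz kk)
open Pool.Agent.N869.QT.L (GdL Lc HypC Fam)
open Pool.Agent.N869.QT.G (sys exC pr)

/-- all the sets of primary primes with norm at most `X` -/
noncomputable def SA (X : ℕ) : Finset (Finset RR) :=
  (QB X).powerset.filter fun S => ∏ π ∈ S, nrm π ≤ X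

/-! ### Linear algebra (see `L/Stm.lean`) -/

/-- the probability that a random completion is good for all the systems is close to `c2 ^ #I`: this is
`L.LAEC` with the definitions of project QK -/
def LAEC {I Q : Type} [Fintype I] (E : I → Finset Q) (ε : ℝ) (K : ℕ) : Prop :=
  ∀ (U J : Type) [Fintype U] [Fintype J] [LinearOrder J] (W : I → Finset U) (g : J → Q)
  (sU tU : U → ZMod 2) (sJ tJ : J → ZMod 2) (A : U → U → ZMod 2) (B : U → J → ZMod 2),
  HypC K W E g sU tU sJ tJ A B →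
  |((univ.filter fun α : prs J → ZMod 2 =>
      ∀ a, GdL (W a) (Lc E g a) sU tU sJ tJ A B (ext tJ α)).card : ℝ) /
      2 ^ (prs J).card - c2 ^ Fintype.card I| ≤ ε

theorem laec_of {I Q : Type} [Fintype I] {E : I → Finset Q} {ε : ℝ} {K : ℕ} (h : L.LAEC E ε K) :
    LAEC E ε K := h

/-! ### Colourings -/

/-- all the systems are good -/
def GdC {I Q : Type} (γ : RR → Q) (E : I → Finset Q) (S : Finset RR) : Prop :=
  ∀ a, Gd (sys γ E S a)

/-- all the systems are in the class -/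
def ClC {I Q : Type} (γ : RR → Q) (E : I → Finset Q) (S : Finset RR) : Prop :=
  ∀ a, ∑ π ∈ sys γ E S a, tt π = 0

/-- the labels of the large primes of every colour are not degenerate, and there are many of them -/
def NdC {Q : Type} (K : ℕ) (γ : RR → Q) (S₀ S₁ : Finset RR) : Prop :=
  ∀ q : Q, Nd S₀ (S₁.filter fun π => γ π = q) ∧
    K * (S₀.card + Nat.log 2 S₁.card + 1) ≤ (S₁.filter fun π => γ π = q ∧ tt π = 1).card

/-- QT-BOX: the count in a box; every side of the box has one colour. -/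
def S_BOXC : Prop := RecP → S_EQ → ∀ (I Q : Type) [Fintype I] [Fintype Q] (E : I → Finset Q), Fam E →
  ∀ (ε : ℝ) (K : ℕ), LAEC E ε K → ∀ (γ : RR → Q) (ι : Type) [Fintype ι] [LinearOrder ι]
  (g : ι → Q) (C : ι → Finset RR) (X : ι → ℕ) (κ : ℝ) (S₀ : Finset RR), 0 ≤ κ →
  (∀ i, (C i).card ≤ X i) → HB C X κ → (∀ u ∈ S₀, Pq u) →
  (∀ i, ∀ π ∈ C i, Pq π ∧ π ∉ S₀ ∧ γ π = g i) → (∀ i l, i ≠ l → Disjoint (C i) (C l)) →
  (∀ p ∈ Fintype.piFinset C, ClC γ E (S₀ ∪ univ.image p)) →
  |(((Fintype.piFinset C).filter fun p => NdC K γ S₀ (univ.image p) ∧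
        GdC γ E (S₀ ∪ univ.image p)).card : ℝ) -
      c2 ^ Fintype.card I *
        (((Fintype.piFinset C).filter fun p => NdC K γ S₀ (univ.image p)).card : ℝ)| ≤
    ε * (((Fintype.piFinset C).filter fun p => NdC K γ S₀ (univ.image p)).card : ℝ) +
    2 ^ ((S₀.card + 2) * Fintype.card ι + (prs ι).card) * (κ * ∏ j, (X j : ℝ))

/-- the regular sets of the class of the families `E` and `F` -/
noncomputable def RgC {I I' Q : Type} (γ : RR → Q) (E : I → Finset Q) (F : I' → Finset Q)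
    (X z H k : ℕ) : Finset (Finset RR) :=
  (SA X).filter fun S => Set.InjOn (bl H) (la z S : Set RR) ∧ S.card ≤ k ∧
    (∏ π ∈ sm z S, nrm π) * ∏ π ∈ la z S, XX H (bl H π) ≤ X ∧ ClC γ E S ∧ ClC γ F S

/-- QT-KEY: the sum over the boxes, for an arbitrary colouring. -/
def S_KEYC : Prop := RecP → S_BIL → S_EQ → S_BOXC → ∀ (I I' Q : Type) [Fintype I] [Fintype I']
  [Fintype Q] (E : I → Finset Q) (F : I' → Finset Q), Fam E → ∃ C : ℝ, 1 ≤ C ∧
  ∀ (γ : RR → Q) (ε : ℝ) (K : ℕ), 0 < ε → LAEC E ε K →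
  ∀ (X z H k N : ℕ) (κ : ℝ), 1 ≤ X → 1 ≤ H → 1 ≤ z → 0 ≤ κ → C ≤ κ ^ 24 * z →
  (H : ℝ) * Real.log X < N →
  |(((RgC γ E F X z H k).filter fun S => NdC K γ (sm z S) (la z S) ∧ GdC γ E S).card : ℝ) -
      c2 ^ Fintype.card I *
        (((RgC γ E F X z H k).filter fun S => NdC K γ (sm z S) (la z S)).card : ℝ)| ≤
    ε * ((RgC γ E F X z H k).card : ℝ) +
    (C * (N + 1) : ℝ) ^ k * (3 ^ (9 * k ^ 2 + 9) * κ) * (X * (1 + Real.log X))

/-- QT-CNT: as `CntP` in `QK/Stm.lean`, for all the sets. -/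
structure CntA (C : ℝ) : Prop where
  one : 1 ≤ C
  all : ∀ X : ℕ, 1 ≤ X → ((SA X).card : ℝ) ≤ C * X
  many : ∀ X k : ℕ, 1 ≤ X → (((SA X).filter fun S => k < S.card).card : ℝ) * 2 ^ k ≤
    C * (X * (1 + Real.log X))
  cut : ∀ X z H k : ℕ, 1 ≤ X → 1 ≤ H → 1 ≤ k → (((SA X).filter fun S => S.card ≤ k ∧
    X < (∏ π ∈ sm z S, nrm π) * ∏ π ∈ la z S, XX H (bl H π)).card : ℝ) ≤
      C * (X * (1 + Real.log X)) * (k / H) + C * X * Real.exp (-(Real.log X) / k)
  coll : ∀ X z H : ℕ, 1 ≤ X → 1 ≤ z → 1 ≤ H → (((SA X).filter fun S =>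
    ¬ Set.InjOn (bl H) (la z S : Set RR)).card : ℝ) ≤ C * (X * (1 + Real.log X)) / H + C * X / z

/-- QT-CNT -/
def S_CNTA : Prop := ∃ C : ℝ, CntA C

/-- QT-LOW: positive density -/
def S_LOWA : Prop := ∃ (c : ℝ) (X₀ : ℕ), 0 < c ∧ ∀ X : ℕ, X₀ ≤ X → c * X ≤ ((SA X).card : ℝ)

/-- QT-FB: the labels are degenerate rarely, for random sets and random colourings. -/
def S_FBC : Prop := RecP → S_HALL → S_MERT → ∀ (Q : Type) [Fintype Q] [Nonempty Q] (K : ℕ) (ε : ℝ),
  0 < ε → ∃ X₀ : ℕ, ∀ X : ℕ, X₀ ≤ X →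
  ∑ S ∈ (SA X).filter (fun S => S.card ≤ kk X),
    pr S (fun γ : RR → Q => ¬ NdC K γ (sm (zz X) S) (la (zz X) S)) ≤ ε * X

/-- QT-ASY: the average over the sets and the colourings (`G.ASY`). -/
def S_ASYC : Prop := G.ASY SA Gd tt c2

/-- QT-FEW: few sets have few elements with norm `3` modulo `4`. -/
def S_FEWC : Prop := G.Few SA tt

end Pool.Agent.N869.QT
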