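import Pool.Agent.N869.QT.FStm

/-!
# Project QT (helper869): the statement for tuples of elements of `RR`
-/

set_option autoImplicit false
set_option linter.unusedVariables false

open scoped Classical

namespace Pool.Agent.N869.QT.FINR

open Finset
open Pool.Agent.Y698
open Pool.Agent.Y698.SG hiding PD
open Pool.Agent.R426.QK
open Pool.Agent.N869.QT
open Pool.Agent.N869.QT.G (sys exC pr Qn ET)

theorem ratio {W p A B g t c δ : ℝ} (hW : 0 < W) (hp : 0 < p) (hc0 : 0 ≤ c) (hc1 : c ≤ 1)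
    (hδ0 : 0 ≤ δ) (hδ : δ ≤ 1 / 2) (hA : |A - c * p| ≤ δ * p) (hB0 : 0 ≤ B) (hB : B ≤ δ * p)
    (ht : t = (p - B) * W) (hg1 : g ≤ A * W) (hg2 : (A - B) * W ≤ g) :
    0 < t ∧ |g / t - c| ≤ 4 * δ := by
  have hpW : 0 < p * W := mul_pos hp hW
  have h1 : p * W / 2 ≤ t := by
    rw [ht]
    have : B * W ≤ δ * p * W := mul_le_mul_of_nonneg_right hB hW.le
    nlinarith
  have ht0 : 0 < t := by linarith
  refine ⟨ht0, ?_⟩
  obtain ⟨hA1, hA2⟩ := abs_le.1 hA
  have h2 : g / t - c = (g - c * t) / t := by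
    field_simp
  rw [h2, abs_div, abs_of_pos ht0, div_le_iff₀ ht0, abs_le]
  have h3 : A * W ≤ (c * p + δ * p) * W := mul_le_mul_of_nonneg_right (by linarith) hW.le
  have h4 : (c * p - δ * p) * W ≤ A * W := mul_le_mul_of_nonneg_right (by linarith) hW.le
  have h5 : B * W ≤ δ * p * W := mul_le_mul_of_nonneg_right hB hW.le
  have h6 : 0 ≤ B * W := mul_nonneg hB0 hW.le
  have h7 : c * (B * W) ≤ 1 * (B * W) := mul_le_mul_of_nonneg_right hc1 h6
  have h8 : 0 ≤ c * (B * W) := mul_nonneg hc0 h6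
  have h9 : δ * (p * W / 2) ≤ δ * t := mul_le_mul_of_nonneg_left h1 hδ0
  constructor
  · rw [ht] at h9 ⊢
    nlinarith
  · rw [ht] at h9 ⊢
    nlinarith

/-- the number of elements does not depend on the instances -/
theorem card_inst (α : Type) (i1 i2 : Fintype α) (p : α → Prop) (d1 d2 : DecidablePred p) :
    (@filter α p d1 (@univ α i1)).card = (@filter α p d2 (@univ α i2)).card := by
  have e1 : d1 = d2 := funext fun a => Subsingleton.elim _ _
  have e2 : i1 = i2 := Subsingleton.elim _ _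
  subst e1
  subst e2
  rfl

theorem card_pr {Q : Type} [Fintype Q] [Nonempty Q] (S : Finset RR) (P : (RR → Q) → Prop)
    {D : DecidablePred fun c : S → Q => P (exC S c)} :
    ((@Finset.filter _ (fun c : S → Q => P (exC S c)) D univ).card : ℝ) =
      pr S P * (Fintype.card Q : ℝ) ^ S.card := by
  have hQ : (0 : ℝ) < Fintype.card Q := by exact_mod_cast Fintype.card_pos
  unfold pr
  rw [div_mul_cancel₀ _ (pow_pos hQ _).ne']
  rw [card_inst (S → Q) _ _ (fun c : S → Q => P (exC S c)) D _]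

theorem t_FINR (hMQ : G.MQ SA Gd tt c2) (hN : S_NST) (hc2 : S_C2) : S_FINR := by
  intro n hn 𝒯 δ ε hδ hε
  have : Nonempty (Qn n) := ⟨⟨{⟨0, by omega⟩}, Finset.singleton_nonempty _⟩⟩
  set δ' : ℝ := min (δ / 4) (1 / 2) with hδ'
  have hδ'0 : 0 < δ' := lt_min (by linarith) (by norm_num)
  obtain ⟨X₀, h⟩ := hMQ n hn 𝒯 δ' ε hδ'0 hε
  refine ⟨X₀, fun X hX => le_trans ?_ (h X hX)⟩
  have hsub : ((SA X).filter fun S => ¬ ((TupR n S).Finite ∧ 0 < (TupR n S).ncard ∧
      |({x ∈ TupR n S | GoR 𝒯 x}.ncard : ℝ) / ((TupR n S).ncard : ℝ) - c2 ^ 𝒯.card| ≤ δ)) ⊆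
      (SA X).filter fun S => ¬ (0 < pr S (fun γ : RR → Qn n => G.ClC tt γ ET S) ∧
        |pr S (fun γ : RR → Qn n => G.ClC tt γ ET S ∧ ∀ T ∈ 𝒯, Gd (sys γ ET S T)) -
          c2 ^ 𝒯.card * pr S (fun γ : RR → Qn n => G.ClC tt γ ET S)| ≤
          δ' * pr S (fun γ : RR → Qn n => G.ClC tt γ ET S) ∧
        pr S (fun γ : RR → Qn n => G.ClC tt γ ET S ∧ ∃ T : Qn n, sys γ ET S T = ∅) ≤
          δ' * pr S (fun γ : RR → Qn n => G.ClC tt γ ET S)) := by
    intro S hS
    rw [mem_filter] at hS ⊢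
    refine ⟨hS.1, fun hp => hS.2 ?_⟩
    obtain ⟨h1, h2, h3⟩ := hp
    have hSq : ∀ π ∈ S, Pq π := by
      have h4 := hS.1
      unfold SA at h4
      rw [mem_filter, mem_powerset] at h4
      exact fun π hπ => (mem_QB.1 (h4.1 hπ)).2
    have hT0 : {x ∈ TupR n S | GoR (∅ : Finset (Qn n)) x} = TupR n S := by
      ext x
      constructor
      · exact fun hx => hx.1
      · exact fun hx => ⟨hx, fun T hT => absurd hT (Finset.notMem_empty T)⟩
    obtain ⟨f0, e0⟩ := hN n S hSq ∅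
    obtain ⟨f1, e1⟩ := hN n S hSq 𝒯
    rw [hT0] at f0 e0
    set W : ℝ := (Fintype.card (Qn n) : ℝ) ^ S.card with hW
    have hW0 : 0 < W := by
      have hQ : (0 : ℝ) < Fintype.card (Qn n) := by exact_mod_cast Fintype.card_pos
      exact pow_pos hQ _
    have k1 := card_pr S (fun γ : RR → Qn n => G.ClC tt γ ET S) (D := Classical.decPred _)
    have k2 := card_pr S (fun γ : RR → Qn n => G.ClC tt γ ET S ∧ ∀ T ∈ 𝒯, Gd (sys γ ET S T))
      (D := Classical.decPred _)
    have k3 := card_pr S (fun γ : RR → Qn n => G.ClC tt γ ET S ∧ ∃ T : Qn n, sys γ ET S T = ∅)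
      (D := Classical.decPred _)
    rw [← hW] at k1 k2 k3
    have c1 : ((TupR n S).ncard : ℝ) +
        ((@Finset.filter _ (fun c : S → Qn n => G.ClC tt (exC S c) ET S ∧
          ∃ T : Qn n, sys (exC S c) ET S T = ∅) (Classical.decPred _) univ).card : ℝ) =
        ((@Finset.filter _ (fun c : S → Qn n => G.ClC tt (exC S c) ET S)
          (Classical.decPred _) univ).card : ℝ) := by
      rw [e0, ← Nat.cast_add]
      congr 1
      rw [← Finset.card_union_of_disjoint]
      · congr 1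
        ext c
        simp only [mem_union, mem_filter, mem_univ, true_and]
        constructor
        · rintro (h5 | h5)
          · exact h5.1
          · exact h5.1
        · intro h5
          by_cases h6 : ∃ T : Qn n, sys (exC S c) ET S T = ∅
          · exact Or.inr ⟨h5, h6⟩
          · refine Or.inl ⟨h5, fun T hT => h6 ⟨T, hT⟩, fun T hT => absurd hT (Finset.notMem_empty T)⟩
      · rw [Finset.disjoint_left]
        intro c hc hc'
        simp only [Finset.mem_filter] at hc hc'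
        obtain ⟨T, hT⟩ := hc'.2.2
        exact hc.2.2.1 T hT
    have c2' : ({x ∈ TupR n S | GoR 𝒯 x}.ncard : ℝ) ≤
        ((@Finset.filter _ (fun c : S → Qn n => G.ClC tt (exC S c) ET S ∧
          ∀ T ∈ 𝒯, Gd (sys (exC S c) ET S T)) (Classical.decPred _) univ).card : ℝ) := by
      rw [e1]
      norm_cast
      refine Finset.card_le_card fun c hc => ?_
      simp only [Finset.mem_filter] at hc ⊢
      exact ⟨hc.1, hc.2.1, hc.2.2.2⟩
    have c3 : ((@Finset.filter _ (fun c : S → Qn n => G.ClC tt (exC S c) ET S ∧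
          ∀ T ∈ 𝒯, Gd (sys (exC S c) ET S T)) (Classical.decPred _) univ).card : ℝ) ≤
        ({x ∈ TupR n S | GoR 𝒯 x}.ncard : ℝ) +
        ((@Finset.filter _ (fun c : S → Qn n => G.ClC tt (exC S c) ET S ∧
          ∃ T : Qn n, sys (exC S c) ET S T = ∅) (Classical.decPred _) univ).card : ℝ) := by
      rw [e1]
      norm_cast
      refine (Finset.card_le_card ?_).trans (Finset.card_union_le _ _)
      intro c hc
      simp only [Finset.mem_filter, Finset.mem_union] at hc ⊢
      by_cases h6 : ∃ T : Qn n, sys (exC S c) ET S T = ∅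
      · exact Or.inr ⟨hc.1, hc.2.1, h6⟩
      · exact Or.inl ⟨hc.1, hc.2.1, fun T hT => h6 ⟨T, hT⟩, hc.2.2⟩
    rw [k1, k3] at c1
    rw [k2] at c2'
    rw [k2, k3] at c3
    have hB0 : 0 ≤ pr S (fun γ : RR → Qn n => G.ClC tt γ ET S ∧ ∃ T : Qn n, sys γ ET S T = ∅) := by
      unfold pr
      positivity
    have hr := ratio (g := ({x ∈ TupR n S | GoR 𝒯 x}.ncard : ℝ)) hW0 h1
      (pow_nonneg hc2.2.1.le 𝒯.card) (pow_le_one₀ hc2.2.1.le hc2.2.2.1.le) hδ'0.le
      (min_le_right _ _) h2 hB0 h3 (t := ((TupR n S).ncard : ℝ)) (by linarith) c2' (by linarith)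
    refine ⟨f0, by exact_mod_cast hr.1, hr.2.trans ?_⟩
    have : δ' ≤ δ / 4 := min_le_left _ _
    linarith
  exact_mod_cast Finset.card_le_card hsub

end Pool.Agent.N869.QT.FINR
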