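import Pool.Agent.N869.QT.Stm

/-!
# Project QT (helper869): translation between tuples of elements and colourings

`S` is a finite set of primary primes of `RR = ℤ[(1 + √-7) / 2]` (the prime divisors of a conductor). An
`n`-tuple `x` of elements of the class `ClsE`, independent modulo squares, such that `S` is the set of the
primary primes that divide some `x i`, corresponds to a colouring of `S` by the nonempty subsets of
`Fin n`: the colour of `π` is `{i | π ∣ x i}`.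
-/

set_option autoImplicit false
set_option linter.unusedVariables false

open scoped Classical

namespace Pool.Agent.N869.QT

open Finset
open Pool.Agent.Y698
open Pool.Agent.Y698.SG hiding PD
open Pool.Agent.R426.QK
open Pool.Agent.N869.QT.G (sys exC pr Qn ET)

/-- no product of a nonempty set of the `x i` is a square -/
def IndR {n : ℕ} (x : Fin n → RR) : Prop :=
  ∀ T : Finset (Fin n), T.Nonempty → ∀ a b : RR, b ≠ 0 → b ^ 2 * ∏ i ∈ T, x i ≠ a ^ 2

/-- the tuples of conductor `S` -/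
def TupR (n : ℕ) (S : Finset RR) : Set (Fin n → RR) :=
  {x | (∀ i, ClsE (x i)) ∧ IndR x ∧ ∀ π : RR, Pq π → (π ∈ S ↔ ∃ i, π ∣ x i)}

/-- the good tuples -/
def GoR {n : ℕ} (𝒯 : Finset (Qn n)) (x : Fin n → RR) : Prop :=
  ∀ T ∈ 𝒯, ∀ N c : RR, ClsE N → c ≠ 0 → ∏ i ∈ T.1, x i = N * c ^ 2 → Gd (PD N)

/-- QT-NST: the good tuples of conductor `S` correspond to the good colourings of `S`. -/
def S_NST : Prop := ∀ (n : ℕ) [Nonempty (Qn n)] (S : Finset RR), (∀ π ∈ S, Pq π) →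
  ∀ 𝒯 : Finset (Qn n), {x ∈ TupR n S | GoR 𝒯 x}.Finite ∧
  {x ∈ TupR n S | GoR 𝒯 x}.ncard = (univ.filter fun c : S → Qn n =>
    G.ClC tt (exC S c) ET S ∧ (∀ T, sys (exC S c) ET S T ≠ ∅) ∧
      ∀ T ∈ 𝒯, Gd (sys (exC S c) ET S T)).card

/-- QT-FINR: the statement for tuples of elements of `RR`. -/
def S_FINR : Prop := ∀ (n : ℕ), 2 ≤ n → ∀ (𝒯 : Finset (Qn n)) (δ ε : ℝ), 0 < δ → 0 < ε →
  ∃ X₀ : ℕ, ∀ X : ℕ, X₀ ≤ X →
  (((SA X).filter fun S => ¬ ((TupR n S).Finite ∧ 0 < (TupR n S).ncard ∧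
    |({x ∈ TupR n S | GoR 𝒯 x}.ncard : ℝ) / ((TupR n S).ncard : ℝ) - c2 ^ 𝒯.card| ≤ δ)).card : ℝ) ≤
    ε * X

end Pool.Agent.N869.QT
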