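import Pool.Agent.R426.QK.Asy
import Pool.Agent.N869.QT.Stm

/-!
# Project QT (helper869): the final asymptotics

Port of `Pool/Agent/R426/QJ/Asy.lean` and `Pool/Agent/R426/QK/Asy.lean` to coloured sets: the statement
for a fixed colouring is averaged over the colourings.
-/

set_option autoImplicit false
set_option linter.unusedVariables false
set_option linter.unusedSectionVars false

open scoped Classical
open Finset Filter

namespace Pool.Agent.N869.QT.ASYC

open Pool.Agent.R426.QK
open Pool.Agent.R426.QK.Asy (Sml sml_of sml_add sml_eps kk_pos kap kap_nonneg kap_pow kap_le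
  log_three cmp)
open Pool.Agent.Y698 (RR)
open Pool.Agent.Y703.CX (jj XX eL zz kk eL_tendsto logX_eq rpow_eL HH NN ev_eL one_le_exp
  HH_ge HH_le HH_pos kk_ge kk_le X_pos one_add_log lin_le zz_ge zz_pos)
open Pool.Agent.N869.QT
open Pool.Agent.N869.QT.L (GdL Lc HypC Fam)
open Pool.Agent.N869.QT.G (sys exC pr Dep)

/-- sets with many primes -/
theorem sml_many {C : ℝ} (h : CntA C) :
    Sml 0 fun X => (((SA X).filter fun S => kk X < S.card).card : ℝ) := by
  have hC := h.one
  apply sml_of (C := 2 * C) (a := 1) (by norm_num)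
  filter_upwards [ev_eL 1] with X hX
  have h0 : 0 < eL X := by linarith
  have h1 := h.many X (kk X) (X_pos h0)
  have h2 : Real.exp (2 * eL X) ≤ 2 ^ kk X := by
    have e : (2 : ℝ) ^ kk X = Real.exp (kk X * Real.log 2) := by
      rw [mul_comm, Real.exp_mul, Real.exp_log (by norm_num), Real.rpow_natCast]
    rw [e]
    apply Real.exp_le_exp.2
    have h3 := kk_ge X
    have h4 := Real.log_two_gt_d9
    nlinarith
  have hX0 : (0 : ℝ) ≤ X := Nat.cast_nonneg _
  have h5 : (((SA X).filter fun S => kk X < S.card).card : ℝ) * Real.exp (2 * eL X) ≤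
      C * (X * (2 * Real.exp (eL X))) := by
    calc _ ≤ (((SA X).filter fun S => kk X < S.card).card : ℝ) * 2 ^ kk X := by gcongr
      _ ≤ C * (X * (1 + Real.log X)) := h1
      _ ≤ _ := by
        have := one_add_log h0
        gcongr
  have h6 : (2 * C) * (X * Real.exp (-1 * eL X)) * Real.exp (2 * eL X) =
      C * (X * (2 * Real.exp (eL X))) := by
    have e : Real.exp (-1 * eL X) * Real.exp (2 * eL X) = Real.exp (eL X) := by
      rw [← Real.exp_add]; congr 1; ring
    calc _ = 2 * C * X * (Real.exp (-1 * eL X) * Real.exp (2 * eL X)) := by ring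
      _ = _ := by rw [e]; ring
  rw [← h6] at h5
  exact le_of_mul_le_mul_right h5 (Real.exp_pos _)

/-- sets near the boundary -/
theorem sml_cut {C : ℝ} (h : CntA C) :
    Sml 0 fun X => (((SA X).filter fun S => S.card ≤ kk X ∧
      X < (∏ π ∈ sm (zz X) S, nrm π) * ∏ π ∈ la (zz X) S, XX (HH X) (bl (HH X) π)).card : ℝ) := by
  have hC := h.one
  apply sml_of (C := 3 * C) (a := 1) (by norm_num)
  filter_upwards [ev_eL 1, lin_le (a := 1) (b := 11) (by norm_num) (by norm_num),
    lin_le (a := 1 / 2) (b := 4) (by norm_num) (by norm_num)] with X hX h11 h12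
  have h0 : 0 < eL X := by linarith
  have h1 := h.cut X (zz X) (HH X) (kk X) (X_pos h0) (HH_pos h0) (kk_pos hX)
  refine h1.trans ?_
  have hH := HH_ge h0
  have hHp : (0 : ℝ) < HH X := lt_of_lt_of_le (Real.exp_pos _) hH
  have hX0 : (0 : ℝ) ≤ X := Nat.cast_nonneg _
  have hkp : (0 : ℝ) < kk X := by exact_mod_cast kk_pos hX
  rw [one_mul] at h11
  have hk1 : (kk X : ℝ) ≤ Real.exp (eL X) := (kk_le hX).trans h11
  have h2 : (kk X : ℝ) / HH X ≤ Real.exp (-2 * eL X) := by
    rw [div_le_iff₀ hHp]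
    calc (kk X : ℝ) ≤ Real.exp (eL X) := hk1
      _ = Real.exp (-2 * eL X) * Real.exp (3 * eL X) := by
          rw [← Real.exp_add]; congr 1; ring
      _ ≤ _ := mul_le_mul_of_nonneg_left hH (Real.exp_pos _).le
  have h3 : C * (X * (1 + Real.log X)) * ((kk X : ℝ) / HH X) ≤ 2 * C * (X * Real.exp (-1 * eL X)) := by
    have h4 := one_add_log h0
    have h5 : (0 : ℝ) ≤ 1 + Real.log X := by
      have := Real.log_natCast_nonneg X
      linarith
    calc C * (X * (1 + Real.log X)) * ((kk X : ℝ) / HH X) ≤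
          C * (X * (2 * Real.exp (eL X))) * Real.exp (-2 * eL X) := by gcongr
      _ = 2 * C * (X * (Real.exp (eL X) * Real.exp (-2 * eL X))) := by ring
      _ = 2 * C * (X * Real.exp (-1 * eL X)) := by
          rw [← Real.exp_add]
          have : eL X + -2 * eL X = -1 * eL X := by ring
          rw [this]
  have h6 : Real.exp (-(Real.log X) / kk X) ≤ Real.exp (-1 * eL X) := by
    apply Real.exp_le_exp.2
    rw [div_le_iff₀ hkp, logX_eq h0]
    have h7 : (kk X : ℝ) ≤ 11 * eL X := kk_le hX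
    have h8 : 16 * (eL X) ^ 2 ≤ Real.exp (eL X) := by
      have h9 : Real.exp (eL X) = Real.exp (1 / 2 * eL X) * Real.exp (1 / 2 * eL X) := by
        rw [← Real.exp_add]; congr 1; ring
      rw [h9]
      have h10 : (4 * eL X) * (4 * eL X) ≤ Real.exp (1 / 2 * eL X) * Real.exp (1 / 2 * eL X) :=
        mul_le_mul h12 h12 (by linarith) (Real.exp_pos _).le
      nlinarith
    nlinarith [sq_nonneg (eL X)]
  have h13 : C * X * Real.exp (-(Real.log X) / kk X) ≤ C * (X * Real.exp (-1 * eL X)) := by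
    rw [mul_assoc]
    gcongr
  linarith

/-- sets with two primes in one block -/
theorem sml_coll {C : ℝ} (h : CntA C) : Sml 0 fun X => (((SA X).filter fun S =>
    ¬ Set.InjOn (bl (HH X)) (la (zz X) S : Set RR)).card : ℝ) := by
  have hC := h.one
  apply sml_of (C := 4 * C) (a := 1) (by norm_num)
  filter_upwards [ev_eL 1] with X hX
  have h0 : 0 < eL X := by linarith
  have h1 := h.coll X (zz X) (HH X) (X_pos h0) (zz_pos hX) (HH_pos h0)
  refine h1.trans ?_
  have hH := HH_ge h0
  have hHp : (0 : ℝ) < HH X := lt_of_lt_of_le (Real.exp_pos _) hH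
  have hX0 : (0 : ℝ) ≤ X := Nat.cast_nonneg _
  have hzp : (0 : ℝ) < zz X := by exact_mod_cast zz_pos hX
  have h2 : C * (X * (1 + Real.log X)) / HH X ≤ 2 * C * (X * Real.exp (-1 * eL X)) := by
    rw [div_le_iff₀ hHp]
    have h4 := one_add_log h0
    have e1 : Real.exp (eL X) ≤ Real.exp (-1 * eL X) * HH X := by
      calc Real.exp (eL X) ≤ Real.exp (-1 * eL X) * Real.exp (3 * eL X) := by
            rw [← Real.exp_add]
            apply Real.exp_le_exp.2
            linarith
        _ ≤ _ := mul_le_mul_of_nonneg_left hH (Real.exp_pos _).le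
    calc C * (X * (1 + Real.log X)) ≤ C * (X * (2 * Real.exp (eL X))) := by gcongr
      _ ≤ C * (X * (2 * (Real.exp (-1 * eL X) * HH X))) := by gcongr
      _ = 2 * C * (X * Real.exp (-1 * eL X)) * HH X := by ring
  have h3 : C * X / zz X ≤ 2 * C * (X * Real.exp (-1 * eL X)) := by
    rw [div_le_iff₀ hzp]
    have h4 := zz_ge hX
    have h5 : (1 : ℝ) / 2 ≤ Real.exp (-1 * eL X) * zz X := by
      have h6 : (1 : ℝ) ≤ Real.exp (-1 * eL X) * Real.exp ((eL X) ^ 3) := by
        rw [← Real.exp_add]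
        apply one_le_exp
        have h7 : eL X ≤ (eL X) ^ 3 := by
          have h8 : (eL X) ^ 3 = eL X * (eL X * eL X) := by ring
          rw [h8]
          nlinarith
        linarith
      calc (1 : ℝ) / 2 ≤ Real.exp (-1 * eL X) * Real.exp ((eL X) ^ 3) / 2 := by linarith
        _ = Real.exp (-1 * eL X) * (Real.exp ((eL X) ^ 3) / 2) := by ring
        _ ≤ _ := mul_le_mul_of_nonneg_left h4 (Real.exp_pos _).le
    calc C * X = 2 * C * X * (1 / 2) := by ring
      _ ≤ 2 * C * X * (Real.exp (-1 * eL X) * zz X) := by gcongr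
      _ = _ := by ring
  linarith

/-- the main error term -/
theorem sml_main {C : ℝ} (hC : 1 ≤ C) : Sml 0 fun X => (C * ((NN X : ℝ) + 1)) ^ kk X *
    (3 ^ (9 * kk X ^ 2 + 9) * kap C X) * (X * (1 + Real.log X)) := by
  apply sml_of (C := 4 * C) (a := 1) (by norm_num)
  filter_upwards [ev_eL (40000 + 4 * C)] with X hX
  set l := eL X with hl
  have h0 : 0 < eL X := by linarith
  have h1 : 1 ≤ eL X := by linarith
  have hX0 : (0 : ℝ) ≤ X := Nat.cast_nonneg _
  have hN : C * ((NN X : ℝ) + 1) ≤ Real.exp (5 * l) := by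
    have h2 : (NN X : ℝ) ≤ HH X * Real.log X + 1 := by
      unfold NN
      push_cast
      have := Nat.floor_le (a := (HH X : ℝ) * Real.log X)
        (mul_nonneg (Nat.cast_nonneg _) (Real.log_natCast_nonneg X))
      linarith
    have h3 : (HH X : ℝ) * Real.log X ≤ 2 * Real.exp (4 * l) := by
      rw [logX_eq h0]
      calc (HH X : ℝ) * Real.exp (eL X) ≤ 2 * Real.exp (3 * eL X) * Real.exp (eL X) :=
            mul_le_mul_of_nonneg_right (HH_le h0) (Real.exp_pos _).le
        _ = 2 * Real.exp (4 * l) := by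
            rw [mul_assoc, ← Real.exp_add]
            congr 2
            rw [hl]
            ring
    have h4 : 1 ≤ Real.exp (4 * l) := one_le_exp (by linarith)
    have h5 : 4 * C ≤ Real.exp l := by
      have := Real.add_one_le_exp l
      linarith
    have h6 : Real.exp (5 * l) = Real.exp (4 * l) * Real.exp l := by
      rw [← Real.exp_add]; congr 1; ring
    rw [h6]
    have h7 : (NN X : ℝ) + 1 ≤ 4 * Real.exp (4 * l) := by linarith
    calc C * ((NN X : ℝ) + 1) ≤ C * (4 * Real.exp (4 * l)) := by gcongr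
      _ = Real.exp (4 * l) * (4 * C) := by ring
      _ ≤ Real.exp (4 * l) * Real.exp l := by gcongr
  have hN0 : (0 : ℝ) ≤ C * ((NN X : ℝ) + 1) := by positivity
  have hkk := kk_le h1
  have hkk0 : (0 : ℝ) ≤ kk X := Nat.cast_nonneg _
  have hA : (C * ((NN X : ℝ) + 1)) ^ kk X ≤ Real.exp (55 * l ^ 2) := by
    calc (C * ((NN X : ℝ) + 1)) ^ kk X ≤ (Real.exp (5 * l)) ^ kk X := by gcongr
      _ = Real.exp (kk X * (5 * l)) := (Real.exp_nat_mul _ _).symm
      _ ≤ Real.exp (55 * l ^ 2) := by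
          apply Real.exp_le_exp.2
          nlinarith
  have hB : (3 : ℝ) ^ (9 * kk X ^ 2 + 9) ≤ Real.exp (1200 * l ^ 2) := by
    have e : (3 : ℝ) ^ (9 * kk X ^ 2 + 9) = Real.exp ((9 * (kk X : ℝ) ^ 2 + 9) * Real.log 3) := by
      rw [mul_comm (9 * (kk X : ℝ) ^ 2 + 9) (Real.log 3), Real.exp_mul, Real.exp_log (by norm_num)]
      rw [← Real.rpow_natCast]
      congr 1
      push_cast
      ring
    rw [e]
    apply Real.exp_le_exp.2
    have h2 := log_three
    have h3 : (kk X : ℝ) ^ 2 ≤ 121 * l ^ 2 := by nlinarith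
    have h4 : 0 ≤ (kk X : ℝ) ^ 2 := sq_nonneg _
    have h5 : (40000 : ℝ) ^ 2 ≤ l ^ 2 := by
      have : (40000 : ℝ) ≤ l := by linarith
      nlinarith
    calc (9 * (kk X : ℝ) ^ 2 + 9) * Real.log 3 ≤ (9 * (kk X : ℝ) ^ 2 + 9) * 1.1 := by gcongr
      _ ≤ (9 * (121 * l ^ 2) + 9) * 1.1 := by gcongr
      _ ≤ 1200 * l ^ 2 := by linarith
  have hK := kap_le hC h1
  have hLg := one_add_log h0
  have hmain : (C * ((NN X : ℝ) + 1)) ^ kk X * (3 ^ (9 * kk X ^ 2 + 9) * kap C X) *
      (X * (1 + Real.log X)) ≤ Real.exp (55 * l ^ 2) * (Real.exp (1200 * l ^ 2) *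
        (2 * C * Real.exp (-l ^ 3 / 24))) * (X * (2 * Real.exp l)) := by
    have := kap_nonneg hC X
    have : 0 ≤ 1 + Real.log X := by
      have := Real.log_natCast_nonneg X
      linarith
    gcongr
  refine hmain.trans ?_
  have e : Real.exp (55 * l ^ 2) * (Real.exp (1200 * l ^ 2) *
        (2 * C * Real.exp (-l ^ 3 / 24))) * (X * (2 * Real.exp l)) =
      4 * C * (X * Real.exp (55 * l ^ 2 + 1200 * l ^ 2 + -l ^ 3 / 24 + l)) := by
    rw [Real.exp_add, Real.exp_add, Real.exp_add]
    ring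
  rw [e]
  have h9 : 55 * l ^ 2 + 1200 * l ^ 2 + -l ^ 3 / 24 + l ≤ -1 * l := by
    have h10 : 40000 * l ^ 2 ≤ l ^ 3 := by
      have : l ^ 3 = l * l ^ 2 := by ring
      rw [this]
      exact mul_le_mul_of_nonneg_right (by linarith) (sq_nonneg l)
    nlinarith
  have h11 := Real.exp_le_exp.2 h9
  have hC0 : (0 : ℝ) ≤ 4 * C := by linarith
  gcongr

section main

variable {I I' Q : Type}

theorem sys_congr {γ γ' : RR → Q} {E : I → Finset Q} {S : Finset RR}
    (h : ∀ π ∈ S, γ π = γ' π) (a : I) : sys γ E S a = sys γ' E S a := by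
  unfold sys
  exact Finset.filter_congr fun π hπ => by rw [h π hπ]

/-- the class -/
def PC (E : I → Finset Q) (F : I' → Finset Q) (S : Finset RR) (γ : RR → Q) : Prop :=
  G.ClC tt γ E S ∧ G.ClC tt γ F S

/-- the class, and good -/
def PG (E : I → Finset Q) (F : I' → Finset Q) (S : Finset RR) (γ : RR → Q) : Prop :=
  G.ClC tt γ E S ∧ G.ClC tt γ F S ∧ G.GdC Gd γ E S

/-- degenerate -/
def PN (K z : ℕ) (S : Finset RR) (γ : RR → Q) : Prop := ¬ NdC K γ (sm z S) (la z S)

theorem clc_congr {γ γ' : RR → Q} {E : I → Finset Q} {S : Finset RR}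
    (h : ∀ π ∈ S, γ π = γ' π) : G.ClC tt γ E S ↔ G.ClC tt γ' E S := by
  unfold G.ClC
  exact forall_congr' fun a => by rw [sys_congr h a]

theorem gdc_congr {γ γ' : RR → Q} {E : I → Finset Q} {S : Finset RR}
    (h : ∀ π ∈ S, γ π = γ' π) : G.GdC Gd γ E S ↔ G.GdC Gd γ' E S := by
  unfold G.GdC
  exact forall_congr' fun a => by rw [sys_congr h a]

theorem dep_PC (E : I → Finset Q) (F : I' → Finset Q) (S : Finset RR) : Dep S (PC E F S) := by
  intro γ γ' h
  unfold PC
  rw [clc_congr h, clc_congr h]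

theorem dep_PG (E : I → Finset Q) (F : I' → Finset Q) (S : Finset RR) : Dep S (PG E F S) := by
  intro γ γ' h
  unfold PG
  rw [clc_congr h, clc_congr h, gdc_congr h]

theorem dep_PN (K z : ℕ) (S : Finset RR) : Dep S (PN (Q := Q) K z S) := by
  intro γ γ' h
  unfold PN
  have h' : ∀ π ∈ la z S, γ π = γ' π := fun π hπ => h π (by
    unfold la at hπ
    exact (Finset.mem_filter.1 hπ).1)
  have e1 : ∀ q, (la z S).filter (fun π => γ π = q) = (la z S).filter (fun π => γ' π = q) :=
    fun q => Finset.filter_congr fun π hπ => by rw [h' π hπ]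
  have e2 : ∀ q, (la z S).filter (fun π => γ π = q ∧ tt π = 1) =
      (la z S).filter (fun π => γ' π = q ∧ tt π = 1) :=
    fun q => Finset.filter_congr fun π hπ => by rw [h' π hπ]
  unfold NdC
  refine not_congr (forall_congr' fun q => ?_)
  rw [e1 q, e2 q]

/-- the sets outside the regular part -/
theorem out_sub (γ : RR → Q) (E : I → Finset Q) (F : I' → Finset Q) (K X z H k : ℕ) :
    ((SA X).filter fun S => PC E F S γ) \
        ((RgC γ E F X z H k).filter fun S => NdC K γ (sm z S) (la z S)) ⊆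
      ((((SA X).filter fun S => k < S.card) ∪
      ((SA X).filter fun S => S.card ≤ k ∧
        X < (∏ π ∈ sm z S, nrm π) * ∏ π ∈ la z S, XX H (bl H π))) ∪
      ((SA X).filter fun S => ¬ Set.InjOn (bl H) (la z S : Set RR))) ∪
      (((SA X).filter fun S => S.card ≤ k).filter fun S => PN K z S γ) := by
  intro S hS
  rw [Finset.mem_sdiff, Finset.mem_filter, Finset.mem_filter] at hS
  obtain ⟨⟨h1, h1'⟩, h2⟩ := hS
  simp only [mem_union, mem_filter]
  by_contra hc
  push Not at hc
  obtain ⟨⟨⟨c1, c2⟩, c3⟩, c5⟩ := hc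
  have d1 : S.card ≤ k := c1 h1
  have d2 := c2 h1 d1
  have d3 := c3 h1
  have d5 := c5 ⟨h1, d1⟩
  unfold PN at d5
  rw [not_not] at d5
  apply h2
  refine ⟨?_, d5⟩
  unfold RgC
  rw [mem_filter]
  exact ⟨h1, d3, d1, d2, h1'.1, h1'.2⟩

/-- the average -/
theorem avg_bound {α : Type} (F : Fintype α) (f g h : α → ℝ) {c M W : ℝ}
    (hcW : ((Fintype.card α : ℕ) : ℝ) = W) (hper : ∀ a, |f a - c * g a| ≤ M + h a) :
    |(∑ a, f a) - c * ∑ a, g a| ≤ M * W + ∑ a, h a := by
  rw [Finset.mul_sum, ← Finset.sum_sub_distrib]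
  refine (Finset.abs_sum_le_sum_abs _ _).trans ?_
  refine (Finset.sum_le_sum fun a _ => hper a).trans ?_
  rw [Finset.sum_add_distrib, Finset.sum_const, Finset.card_univ, nsmul_eq_mul, hcW, mul_comm M]

/-- the statement for a fixed colouring -/
theorem per_col [Fintype I] (γ : RR → Q) (E : I → Finset Q) (F : I' → Finset Q) (K X z H k : ℕ)
    {g ε m : ℝ} (hg0 : 0 ≤ g) (hg1 : g ≤ 1) (hε : 0 ≤ ε)
    (hmain : |(((RgC γ E F X z H k).filter fun S =>
          NdC K γ (sm z S) (la z S) ∧ GdC γ E S).card : ℝ) -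
        g * (((RgC γ E F X z H k).filter fun S => NdC K γ (sm z S) (la z S)).card : ℝ)| ≤
      ε * ((RgC γ E F X z H k).card : ℝ) + m) :
    |(((SA X).filter fun S => PG E F S γ).card : ℝ) -
        g * (((SA X).filter fun S => PC E F S γ).card : ℝ)| ≤
      (ε * ((SA X).card : ℝ) + m + (((((SA X).filter fun S => k < S.card).card : ℝ) +
      (((SA X).filter fun S => S.card ≤ k ∧
        X < (∏ π ∈ sm z S, nrm π) * ∏ π ∈ la z S, XX H (bl H π)).card : ℝ) +
      (((SA X).filter fun S => ¬ Set.InjOn (bl H) (la z S : Set RR)).card : ℝ)))) +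
      ((((SA X).filter fun S => S.card ≤ k).filter fun S => PN K z S γ).card : ℝ) := by
  set T := (RgC γ E F X z H k).filter
    fun S => NdC K γ (sm z S) (la z S) with hT
  set A := (SA X).filter fun S => PC E F S γ with hA
  have hTG : ((RgC γ E F X z H k).filter
      (fun S => NdC K γ (sm z S) (la z S) ∧ GdC γ E S)).card = (T.filter (GdC γ E)).card := by
    rw [hT, filter_filter]
  rw [hTG] at hmain
  have hTA : T ⊆ A := by
    intro S hS
    rw [hT, mem_filter] at hS
    have h1 := hS.1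
    unfold RgC at h1
    rw [mem_filter] at h1
    rw [hA, mem_filter]
    exact ⟨h1.1, h1.2.2.2.2.1, h1.2.2.2.2.2⟩
  have hAG : ((SA X).filter fun S => PG E F S γ).card = (A.filter (GdC γ E)).card := by
    rw [hA, filter_filter]
    congr 1
    refine filter_congr fun S _ => ?_
    unfold PG PC
    exact and_assoc.symm
  have hRS : ((RgC γ E F X z H k).card : ℝ) ≤ ((SA X).card : ℝ) := by
    exact_mod_cast card_le_card (filter_subset _ _)
  have hcmp := cmp (GdC γ E) T A hTA g hg0 hg1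
  have hout : ((A \ T).card : ℝ) ≤
      ((((SA X).filter fun S => k < S.card).card : ℝ) +
      (((SA X).filter fun S => S.card ≤ k ∧
        X < (∏ π ∈ sm z S, nrm π) * ∏ π ∈ la z S, XX H (bl H π)).card : ℝ) +
      (((SA X).filter fun S => ¬ Set.InjOn (bl H) (la z S : Set RR)).card : ℝ)) +
      ((((SA X).filter fun S => S.card ≤ k).filter fun S => PN K z S γ).card : ℝ) := by
    have g := card_le_card (out_sub γ E F K X z H k)
    rw [← hT, ← hA] at g
    have g2 := (g.trans (card_union_le _ _)).trans (Nat.add_le_add_right ((card_union_le _ _).trans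
      (Nat.add_le_add_right (card_union_le _ _) _)) _)
    exact_mod_cast g2
  have g1 : ε * ((RgC γ E F X z H k).card : ℝ) ≤
      ε * ((SA X).card : ℝ) := mul_le_mul_of_nonneg_left hRS hε
  rw [hAG]
  linarith

end main

/-- **QT-ASY.** -/
theorem t_ASYC (hR : RecP) (h1 : S_BIL) (h3 : S_EQ) (h4 : L.S_LAC) (h5 : S_BOXC) (hK : S_KEYC)
    (hC : S_CNTA) (hHa : S_HALL) (hMe : S_MERT) (hF : S_FBC) (hAV : G.S_AV2) (hc2 : S_C2) :
    S_ASYC := by
  intro I I' Q _ _ _ _ E F hFam ε hε
  obtain ⟨C, hC1, hkey⟩ := hK hR h1 h3 h5 I I' Q E F hFam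
  obtain ⟨D, hD⟩ := hC
  have hD1 := hD.one
  have hg0 : (0 : ℝ) ≤ c2 ^ Fintype.card I := pow_nonneg hc2.2.1.le _
  have hg1 : (c2 : ℝ) ^ Fintype.card I ≤ 1 := pow_le_one₀ hc2.2.1.le hc2.2.2.1.le
  have hε' : (0 : ℝ) < ε / (4 * D) := by positivity
  obtain ⟨K, hV⟩ := h4 I Q E hFam (ε / (4 * D)) hε'
  have hV' : LAEC E (ε / (4 * D)) K := laec_of hV
  obtain ⟨X₁, hFB⟩ := hF hR hHa hMe Q K (ε / 4) (by linarith)
  have s1 := sml_many hD
  have s2 := sml_cut hD
  have s3 := sml_coll hD
  have s6 := sml_main hC1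
  have s := sml_add (sml_add (sml_add s1 s2) s3) s6
  have hev := (s (ε / 4) (by linarith)).and ((ev_eL 1).and (eventually_ge_atTop X₁))
  obtain ⟨X₀, hX₀⟩ := eventually_atTop.1 hev
  refine ⟨X₀, fun X hXX => ?_⟩
  obtain ⟨hX, hl, hX1⟩ := hX₀ X hXX
  rw [neg_zero, zero_mul, Real.exp_zero, mul_one] at hX
  have hl0 : 0 < eL X := by linarith
  have hXp := X_pos hl0
  have hXp' : (0 : ℝ) < X := by exact_mod_cast hXp
  have hN : (HH X : ℝ) * Real.log X < NN X := by
    unfold NN
    push_cast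
    exact Nat.lt_floor_add_one _
  have hBsub : ∀ S ∈ SA X, S ⊆ QB X := by
    intro S hS
    unfold SA at hS
    exact Finset.mem_powerset.1 (Finset.mem_filter.1 hS).1
  have a1 := hAV RR Q (QB X) (SA X) (PG E F) hBsub fun S _ => dep_PG E F S
  have a2 := hAV RR Q (QB X) (SA X) (PC E F) hBsub fun S _ => dep_PC E F S
  have a3 := hAV RR Q (QB X) ((SA X).filter fun S => S.card ≤ kk X) (PN K (zz X))
    (fun S hS => hBsub S (Finset.mem_filter.1 hS).1) fun S _ => dep_PN K (zz X) S
  have hfb := hFB X hX1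
  have hfb' : ∑ S ∈ (SA X).filter (fun S => S.card ≤ kk X), pr S (PN (Q := Q) K (zz X) S) ≤
      ε / 4 * X := hfb
  rw [a3] at hfb'
  show |∑ S ∈ SA X, pr S (PG E F S) -
      c2 ^ Fintype.card I * ∑ S ∈ SA X, pr S (PC E F S)| ≤ ε * X
  rw [a1, a2]
  set W : ℝ := (Fintype.card Q : ℝ) ^ (QB X).card with hW
  have hQ0 : (0 : ℝ) < Fintype.card Q := by exact_mod_cast Fintype.card_pos
  have hW0 : 0 < W := pow_pos hQ0 _
  have hcW : ∀ F : Fintype (QB X → Q), ((@Fintype.card (QB X → Q) F : ℕ) : ℝ) = W := by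
    intro F
    rw [← @Nat.card_eq_fintype_card _ F, Nat.card_fun, Nat.card_eq_fintype_card,
      Nat.card_eq_fintype_card, Fintype.card_coe]
    push_cast
    rfl
  set M : ℝ := (ε / (4 * D) * ((SA X).card : ℝ) + (C * ((NN X : ℝ) + 1)) ^ kk X *
    (3 ^ (9 * kk X ^ 2 + 9) * kap C X) * (X * (1 + Real.log X)) +
      (((((SA X).filter fun S => kk X < S.card).card : ℝ) +
      (((SA X).filter fun S => S.card ≤ kk X ∧
        X < (∏ π ∈ sm (zz X) S, nrm π) * ∏ π ∈ la (zz X) S, XX (HH X) (bl (HH X) π)).card : ℝ) +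
      (((SA X).filter fun S => ¬ Set.InjOn (bl (HH X)) (la (zz X) S : Set RR)).card : ℝ)))) with hM
  have hper : ∀ c : QB X → Q,
      |(((SA X).filter fun S => PG E F S (exC (QB X) c)).card : ℝ) -
        c2 ^ Fintype.card I * (((SA X).filter fun S => PC E F S (exC (QB X) c)).card : ℝ)| ≤
      M + ((((SA X).filter fun S => S.card ≤ kk X).filter fun S =>
        PN K (zz X) S (exC (QB X) c)).card : ℝ) := by
    intro c
    exact per_col (exC (QB X) c) E F K X (zz X) (HH X) (kk X) hg0 hg1 hε'.le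
      (hkey (exC (QB X) c) (ε / (4 * D)) K hε' hV' X (zz X) (HH X) (kk X) (NN X) (kap C X) hXp
        (HH_pos hl0) (zz_pos hl) (kap_nonneg hC1 X) (kap_pow hC1 hl) hN)
  have hMle : M ≤ ε / 2 * X := by
    have g1 : ε / (4 * D) * ((SA X).card : ℝ) ≤ ε / 4 * X := by
      have g2 := hD.all X hXp
      calc ε / (4 * D) * ((SA X).card : ℝ) ≤ ε / (4 * D) * (D * X) := by gcongr
        _ = ε / 4 * X := by
            field_simp
    rw [hM]
    linarith
  have e1 : ∀ a b : ℝ, a / W - c2 ^ Fintype.card I * (b / W) =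
      (a - c2 ^ Fintype.card I * b) / W := by
    intro a b
    rw [sub_div, mul_div_assoc]
  rw [e1, abs_div, abs_of_pos hW0, div_le_iff₀ hW0]
  refine le_trans (avg_bound _ _ _ _ (hcW _) hper) ?_
  rw [div_le_iff₀ hW0] at hfb'
  have g3 : M * W ≤ ε / 2 * X * W := mul_le_mul_of_nonneg_right hMle hW0.le
  have g4 : 0 ≤ ε * X * W := by positivity
  linarith

/-- **QT-FEW.** -/
theorem t_FEWC (hR : RecP) (hC : S_CNTA) (hHa : S_HALL) (hMe : S_MERT) (hF : S_FBC) : S_FEWC := by
  intro m ε hε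
  obtain ⟨D, hD⟩ := hC
  obtain ⟨X₁, hFB⟩ := hF hR hHa hMe Unit m (ε / 2) (by linarith)
  have s1 := sml_many hD
  have hev := (s1 (ε / 2) (by linarith)).and (eventually_ge_atTop X₁)
  obtain ⟨X₀, hX₀⟩ := eventually_atTop.1 hev
  refine ⟨X₀, fun X hXX => ?_⟩
  obtain ⟨hX, hX1⟩ := hX₀ X hXX
  rw [neg_zero, zero_mul, Real.exp_zero, mul_one] at hX
  have hfb := hFB X hX1
  have hsub : (SA X).filter (fun S => (S.filter fun π => tt π = 1).card < m) ⊆
      ((SA X).filter fun S => kk X < S.card) ∪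
        (((SA X).filter fun S => S.card ≤ kk X).filter fun S =>
          (S.filter fun π => tt π = 1).card < m) := by
    intro S hS
    rw [mem_filter] at hS
    rw [mem_union, mem_filter, mem_filter, mem_filter]
    rcases lt_or_ge (kk X) S.card with h | h
    · exact Or.inl ⟨hS.1, h⟩
    · exact Or.inr ⟨⟨hS.1, h⟩, hS.2⟩
  have h2 : ((((SA X).filter fun S => S.card ≤ kk X).filter fun S =>
          (S.filter fun π => tt π = 1).card < m).card : ℝ) ≤
      ∑ S ∈ (SA X).filter (fun S => S.card ≤ kk X),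
        pr S (fun γ : RR → Unit => ¬ NdC m γ (sm (zz X) S) (la (zz X) S)) := by
    rw [Finset.card_filter]
    push_cast
    refine Finset.sum_le_sum fun S hS => ?_
    split_ifs with h
    · have hall : ∀ γ : RR → Unit, ¬ NdC m γ (sm (zz X) S) (la (zz X) S) := by
        intro γ hγ
        have h4 : m * ((sm (zz X) S).card + Nat.log 2 (la (zz X) S).card + 1) ≤
            (S.filter fun π => tt π = 1).card := by
          refine (hγ ()).2.trans ?_
          refine Finset.card_le_card ?_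
          intro π hπ
          simp only [Finset.mem_filter] at hπ ⊢
          have h6 := hπ.1
          unfold la at h6
          exact ⟨(mem_filter.1 h6).1, hπ.2.2⟩
        have h5 : m ≤ m * ((sm (zz X) S).card + Nat.log 2 (la (zz X) S).card + 1) :=
          Nat.le_mul_of_pos_right m (by omega)
        omega
      have : pr S (fun γ : RR → Unit => ¬ NdC m γ (sm (zz X) S) (la (zz X) S)) = 1 := by
        unfold pr
        simp [hall]
      rw [this]
    · unfold pr
      positivity
  have h3 : (((SA X).filter (fun S => (S.filter fun π => tt π = 1).card < m)).card : ℝ) ≤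
      (((SA X).filter fun S => kk X < S.card).card : ℝ) +
      ((((SA X).filter fun S => S.card ≤ kk X).filter fun S =>
          (S.filter fun π => tt π = 1).card < m).card : ℝ) := by
    exact_mod_cast (card_le_card hsub).trans (card_union_le _ _)
  linarith

end Pool.Agent.N869.QT.ASYC
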