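import Pool.Agent.R426.QK.BOX
import Pool.Agent.R426.QK.KEY1
import Pool.Agent.N869.QT.Stm

/-!
# Project QT (helper869): the count in a box

Port of `Pool/Agent/R426/QJ/Box.lean` to coloured sets.
-/

set_option autoImplicit false
set_option linter.unusedVariables false
set_option linter.unusedSectionVars false

open scoped Classical

namespace Pool.Agent.N869.QT.BOXC

open Finset
open Pool.Agent.Y698 (RR)
open Pool.Agent.R426.QK
open Pool.Agent.N869.QT
open Pool.Agent.N869.QT.L (GdL Lc HypC Fam)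
open Pool.Agent.N869.QT.G (sys exC pr)
open Pool.Agent.R426.QK.BOX (z2_self z2_swap lb ez0 ez0_coe cs_sw HB_sub)

section one

variable {I Q : Type} {E : I → Finset Q} {γ : RR → Q} {S₀ : Finset RR}
  {ι : Type} [Fintype ι] [LinearOrder ι] {p : ι → RR} {g : ι → Q}

/-- the small primes of the system `a` -/
noncomputable def Wc (γ : RR → Q) (E : I → Finset Q) (S₀ : Finset RR) (a : I) : Finset S₀ :=
  univ.filter fun u => γ (u : RR) ∈ E a

theorem mem_Wc {a : I} {u : S₀} : u ∈ Wc γ E S₀ a ↔ γ (u : RR) ∈ E a := by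
  unfold Wc
  rw [Finset.mem_filter]
  exact ⟨fun h => h.2, fun h => ⟨Finset.mem_univ _, h⟩⟩

omit [LinearOrder ι] in
theorem mem_Lc {a : I} {k : ι} : k ∈ Lc E g a ↔ g k ∈ E a := by
  unfold Lc
  rw [Finset.mem_filter]
  exact ⟨fun h => h.2, fun h => ⟨Finset.mem_univ _, h⟩⟩

omit [LinearOrder ι] in
theorem mem_sys_small {a : I} (u : S₀) :
    (u : RR) ∈ sys γ E (S₀ ∪ univ.image p) a ↔ u ∈ Wc γ E S₀ a := by
  unfold sys
  rw [Finset.mem_filter, mem_Wc]
  exact ⟨fun h => h.2, fun h => ⟨Finset.mem_union_left _ u.2, h⟩⟩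

omit [LinearOrder ι] in
theorem mem_sys_large (hg : ∀ k, γ (p k) = g k) {a : I} (k : ι) :
    p k ∈ sys γ E (S₀ ∪ univ.image p) a ↔ k ∈ Lc E g a := by
  unfold sys
  rw [Finset.mem_filter, mem_Lc, hg]
  exact ⟨fun h => h.2, fun h => ⟨Finset.mem_union_right _
    (Finset.mem_image_of_mem _ (Finset.mem_univ _)), h⟩⟩

omit [LinearOrder ι] in
theorem mem_sys {a : I} {x : RR} (hx : x ∈ sys γ E (S₀ ∪ univ.image p) a) :
    (∃ u : S₀, (u : RR) = x) ∨ ∃ k, p k = x := by
  unfold sys at hx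
  rw [Finset.mem_filter, Finset.mem_union, Finset.mem_image] at hx
  rcases hx.1 with h | ⟨k, -, h⟩
  · exact Or.inl ⟨⟨x, h⟩, rfl⟩
  · exact Or.inr ⟨k, h⟩

omit [LinearOrder ι] in
theorem sum_sys (hp : Function.Injective p) (hd : ∀ i, p i ∉ S₀) (hg : ∀ k, γ (p k) = g k) (a : I)
    (f : RR → ZMod 2) :
    ∑ x ∈ sys γ E (S₀ ∪ univ.image p) a, f x =
      ∑ u ∈ Wc γ E S₀ a, f u + ∑ l ∈ Lc E g a, f (p l) := by
  unfold sys Wc Lc
  rw [Finset.filter_union, Finset.sum_union]
  · congr 1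
    · rw [Finset.sum_filter, Finset.sum_filter, ← Finset.sum_coe_sort S₀]
    · rw [Finset.filter_image, Finset.sum_image (fun a _ b _ h => hp h)]
      refine Finset.sum_congr ?_ fun _ _ => rfl
      ext k
      simp only [Finset.mem_filter, hg]
  · refine Finset.disjoint_filter_filter ?_
    rw [Finset.disjoint_left]
    intro x hx hx'
    rw [Finset.mem_image] at hx'
    obtain ⟨i, -, rfl⟩ := hx'
    exact hd i hx

theorem ext_term (hrec : RecP) (hp : Function.Injective p) (hpr : ∀ i, Pq (p i)) (k l : ι)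
    (d : ι → ZMod 2) :
    Pool.Agent.R426.QK.ext (fun i => tt (p i))
      (fun e : prs ι => cs (p e.1.1) (p e.1.2)) k l * (d k + d l) =
      cs (p l) (p k) * (d k + d l) := by
  by_cases hlk : l = k
  · rw [hlk, z2_self, mul_zero, mul_zero]
  congr 1
  unfold Pool.Agent.R426.QK.ext
  by_cases h : (l, k) ∈ prs ι
  · rw [dif_pos h]
  · rw [dif_neg h]
    have h2 : (k, l) ∈ prs ι := by
      unfold prs at h ⊢
      rw [Finset.mem_filter] at h ⊢
      refine ⟨Finset.mem_univ _, ?_⟩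
      rcases lt_trichotomy k l with h1 | h1 | h1
      · exact h1
      · exact absurd h1.symm hlk
      · exact absurd ⟨Finset.mem_univ _, h1⟩ h
    rw [dif_pos h2]
    have h3 := hrec (p k) (p l) (hpr k) (hpr l) (fun h => hlk (hp h).symm)
    exact (z2_swap h3).symm

theorem gd_sys (hrec : RecP) (hp : Function.Injective p) (hpr : ∀ i, Pq (p i))
    (hS₀ : ∀ u ∈ S₀, Pq u) (hd : ∀ i, p i ∉ S₀) (hg : ∀ k, γ (p k) = g k) (a : I) :
    Gd (sys γ E (S₀ ∪ univ.image p) a) ↔ GdL (Wc γ E S₀ a) (Lc E g a)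
      (fun u : S₀ => ss u) (fun u : S₀ => tt u)
      (fun i => ss (p i)) (fun i => tt (p i)) (fun u v : S₀ => cs v u)
      (fun (u : S₀) l => cs (p l) u)
      (Pool.Agent.R426.QK.ext (fun i => tt (p i)) fun e : prs ι => cs (p e.1.1) (p e.1.2)) := by
  have hsol : ∀ c : RR → ZMod 2, Sol (sys γ E (S₀ ∪ univ.image p) a) c ↔
      (∀ u ∈ Wc γ E S₀ a, ss u * c u + ∑ v ∈ Wc γ E S₀ a, cs v u * (c u + c v) +
        ∑ l ∈ Lc E g a, cs (p l) u * (c u + c (p l)) = 0) ∧
      (∀ k ∈ Lc E g a, ss (p k) * c (p k) +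
        ∑ u ∈ Wc γ E S₀ a, (cs (p k) u + tt u * tt (p k)) * (c (p k) + c u) +
        ∑ l ∈ Lc E g a, Pool.Agent.R426.QK.ext (fun i => tt (p i))
          (fun e : prs ι => cs (p e.1.1) (p e.1.2)) k l * (c (p k) + c (p l)) = 0) := by
    intro c
    have hsym : ∀ k : ι, ∑ u ∈ Wc γ E S₀ a, cs (u : RR) (p k) * (c (p k) + c u) =
        ∑ u ∈ Wc γ E S₀ a, (cs (p k) u + tt (u : RR) * tt (p k)) * (c (p k) + c u) := by
      intro k
      refine Finset.sum_congr rfl fun u _ => ?_
      rw [cs_sw hrec hpr hS₀ hd k u]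
    have hex : ∀ k : ι, ∑ l ∈ Lc E g a, Pool.Agent.R426.QK.ext (fun i => tt (p i))
          (fun e : prs ι => cs (p e.1.1) (p e.1.2)) k l * (c (p k) + c (p l)) =
          ∑ l ∈ Lc E g a, cs (p l) (p k) * (c (p k) + c (p l)) := by
      intro k
      exact Finset.sum_congr rfl fun l _ => ext_term hrec hp hpr k l (fun l => c (p l))
    unfold Sol
    constructor
    · intro h
      refine ⟨fun u hu => ?_, fun k hk => ?_⟩
      · have := h u ((mem_sys_small u).2 hu)
        rw [sum_sys hp hd hg, ← add_assoc] at this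
        exact this
      · have := h (p k) ((mem_sys_large hg k).2 hk)
        rw [sum_sys hp hd hg, hsym, ← add_assoc] at this
        rw [hex]
        exact this
    · rintro ⟨h1, h2⟩ x hx
      rw [sum_sys hp hd hg, ← add_assoc]
      rcases mem_sys hx with ⟨u, rfl⟩ | ⟨k, rfl⟩
      · exact h1 u ((mem_sys_small u).1 hx)
      · have := h2 k ((mem_sys_large hg k).1 hx)
        rw [hex] at this
        rw [hsym]
        exact this
  unfold Gd GdL
  constructor
  · intro h c d h01 h02 h1 h2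
    obtain ⟨c', hc'⟩ : ∃ c' : RR → ZMod 2, ∀ n, c' n = if h : n ∈ S₀ then c ⟨n, h⟩ else
      if h : ∃ l, p l = n then d h.choose else 0 := ⟨_, fun n => rfl⟩
    have e1 : ∀ u : S₀, c' u = c u := by
      intro u
      rw [hc', dif_pos u.2]
    have e2 : ∀ l, c' (p l) = d l := by
      intro l
      have hex : ∃ l', p l' = p l := ⟨l, rfl⟩
      rw [hc', dif_neg (hd l), dif_pos hex]
      exact congrArg d (hp hex.choose_spec)
    have hs : Sol (sys γ E (S₀ ∪ univ.image p) a) c' := by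
      rw [hsol]
      refine ⟨fun u hu => ?_, fun k hk => ?_⟩
      · simp only [e1, e2]
        exact h1 u hu
      · simp only [e1, e2]
        exact h2 k hk
    have h3 := h c' hs
    refine ⟨fun u => ?_, fun l => ?_⟩
    · by_cases hu : u ∈ Wc γ E S₀ a
      · rw [← e1]
        exact h3 _ ((mem_sys_small u).2 hu)
      · exact h01 u hu
    · by_cases hl : l ∈ Lc E g a
      · rw [← e2]
        exact h3 _ ((mem_sys_large hg l).2 hl)
      · exact h02 l hl
  · intro h c hc
    rw [hsol] at hc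
    obtain ⟨ht1, ht2⟩ := h (fun u => if u ∈ Wc γ E S₀ a then c u else 0)
      (fun l => if l ∈ Lc E g a then c (p l) else 0) (fun u hu => if_neg hu) (fun l hl => if_neg hl)
      (by
        intro u hu
        have h1 := hc.1 u hu
        rw [if_pos hu]
        have e1 : ∑ v ∈ Wc γ E S₀ a, cs (v : RR) u * (c u + if v ∈ Wc γ E S₀ a then c v else 0) =
            ∑ v ∈ Wc γ E S₀ a, cs (v : RR) u * (c u + c v) :=
          Finset.sum_congr rfl fun v hv => by rw [if_pos hv]
        have e2 : ∑ l ∈ Lc E g a, cs (p l) u * (c u + if l ∈ Lc E g a then c (p l) else 0) =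
            ∑ l ∈ Lc E g a, cs (p l) u * (c u + c (p l)) :=
          Finset.sum_congr rfl fun v hv => by rw [if_pos hv]
        rw [e1, e2]
        exact h1)
      (by
        intro k hk
        have h1 := hc.2 k hk
        rw [if_pos hk]
        have e1 : ∑ u ∈ Wc γ E S₀ a, (cs (p k) u + tt (u : RR) * tt (p k)) *
              (c (p k) + if u ∈ Wc γ E S₀ a then c u else 0) =
            ∑ u ∈ Wc γ E S₀ a, (cs (p k) u + tt (u : RR) * tt (p k)) * (c (p k) + c u) :=
          Finset.sum_congr rfl fun v hv => by rw [if_pos hv]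
        have e2 : ∑ l ∈ Lc E g a, Pool.Agent.R426.QK.ext (fun i => tt (p i))
              (fun e : prs ι => cs (p e.1.1) (p e.1.2)) k l *
              (c (p k) + if l ∈ Lc E g a then c (p l) else 0) =
            ∑ l ∈ Lc E g a, Pool.Agent.R426.QK.ext (fun i => tt (p i))
              (fun e : prs ι => cs (p e.1.1) (p e.1.2)) k l * (c (p k) + c (p l)) :=
          Finset.sum_congr rfl fun v hv => by rw [if_pos hv]
        rw [e1, e2]
        exact h1)
    intro x hx
    rcases mem_sys hx with ⟨u, rfl⟩ | ⟨k, rfl⟩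
    · have h1 := ht1 u
      rwa [if_pos ((mem_sys_small u).1 hx)] at h1
    · have h1 := ht2 k
      rwa [if_pos ((mem_sys_large hg k).1 hx)] at h1

/-- the label condition -/
def LNC (K : ℕ) (S₀ : Finset RR) (g : ι → Q) (β : ι → (S₀ → ZMod 2) × ZMod 2 × ZMod 2) : Prop :=
  ∀ q : Q, (∀ (w : S₀ → ZMod 2) (e : ZMod 2), ((∃ u, w u ≠ 0) ∨ e ≠ 0) →
    (∃ k, g k = q ∧ e * (β k).2.1 + ∑ u, w u * ((β k).1 u + tt u * (β k).2.2) ≠ 0) ∧
    ∃ k, g k = q ∧ e * ((β k).2.1 + (β k).2.2) + ∑ u, w u * (β k).1 u ≠ 0) ∧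
  K * (S₀.card + Nat.log 2 (Fintype.card ι) + 1) ≤ (univ.filter fun k => g k = q ∧ (β k).2.2 = 1).card

omit [LinearOrder ι] in
theorem ndC_iff (hrec : RecP) (hp : Function.Injective p) (hpr : ∀ i, Pq (p i))
    (hS₀ : ∀ u ∈ S₀, Pq u) (hd : ∀ i, p i ∉ S₀) (hg : ∀ k, γ (p k) = g k) (K : ℕ) :
    NdC K γ S₀ (univ.image p) ↔ LNC K S₀ g (fun i => lb S₀ (p i)) := by
  unfold NdC LNC
  refine forall_congr' fun q => and_congr ?_ ?_
  · unfold Nd
    have hmem : ∀ x, x ∈ (univ.image p).filter (fun π => γ π = q) ↔ ∃ k, g k = q ∧ p k = x := by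
      intro x
      rw [Finset.mem_filter, Finset.mem_image]
      constructor
      · rintro ⟨⟨k, -, rfl⟩, h⟩
        exact ⟨k, by rw [← hg]; exact h, rfl⟩
      · rintro ⟨k, h, rfl⟩
        exact ⟨⟨k, Finset.mem_univ _, rfl⟩, by rw [hg]; exact h⟩
    have e1 : ∀ (w : RR → ZMod 2) (e : ZMod 2) (i : ι),
        e * ss (p i) + ∑ u ∈ S₀, w u * cs u (p i) =
        e * (lb S₀ (p i)).2.1 + ∑ u : S₀, w u * ((lb S₀ (p i)).1 u + tt u * (lb S₀ (p i)).2.2) := by
      intro w e i
      rw [← Finset.sum_coe_sort S₀]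
      congr 1
      refine Finset.sum_congr rfl fun u _ => ?_
      rw [cs_sw hrec hpr hS₀ hd i u]
      rfl
    have e2 : ∀ (w : RR → ZMod 2) (e : ZMod 2) (i : ι),
        e * (ss (p i) + tt (p i)) + ∑ u ∈ S₀, w u * cs (p i) u =
        e * ((lb S₀ (p i)).2.1 + (lb S₀ (p i)).2.2) + ∑ u : S₀, w u * (lb S₀ (p i)).1 u := by
      intro w e i
      rw [← Finset.sum_coe_sort S₀]
      rfl
    constructor
    · intro h w e hw
      have hw' : (∃ u ∈ S₀, ez0 w u ≠ 0) ∨ e ≠ 0 := by
        rcases hw with ⟨u, hu⟩ | hw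
        · exact Or.inl ⟨u, u.2, by rw [ez0_coe]; exact hu⟩
        · exact Or.inr hw
      obtain ⟨⟨x, hx, hx2⟩, ⟨y, hy, hy2⟩⟩ := h (ez0 w) e hw'
      rw [hmem] at hx hy
      obtain ⟨i, hi, rfl⟩ := hx
      obtain ⟨j, hj, rfl⟩ := hy
      rw [e1] at hx2
      rw [e2] at hy2
      simp only [ez0_coe] at hx2 hy2
      exact ⟨⟨i, hi, hx2⟩, ⟨j, hj, hy2⟩⟩
    · intro h w e hw
      have hw' : (∃ u : S₀, (fun u : S₀ => w u) u ≠ 0) ∨ e ≠ 0 := by
        rcases hw with ⟨u, hu0, hu⟩ | hw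
        · exact Or.inl ⟨⟨u, hu0⟩, hu⟩
        · exact Or.inr hw
      obtain ⟨⟨i, hi0, hi⟩, ⟨j, hj0, hj⟩⟩ := h (fun u => w u) e hw'
      refine ⟨⟨p i, (hmem _).2 ⟨i, hi0, rfl⟩, ?_⟩, ⟨p j, (hmem _).2 ⟨j, hj0, rfl⟩, ?_⟩⟩
      · rw [e1]
        exact hi
      · rw [e2]
        exact hj
  · have e1 : (univ.image p).card = Fintype.card ι := by
      rw [Finset.card_image_of_injective _ hp, Finset.card_univ]
    have e2 : ((univ.image p).filter fun π => γ π = q ∧ tt π = 1).card =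
        (univ.filter fun k => g k = q ∧ (lb S₀ (p k)).2.2 = 1).card := by
      rw [Finset.filter_image, Finset.card_image_of_injective _ hp]
      congr 1
      ext k
      rw [Finset.mem_filter, Finset.mem_filter, hg]
      exact Iff.rfl
    rw [e1, e2]

end one

/-- **The joint count in a box.** -/
theorem t_BOXC : S_BOXC := by
  intro hrec hEQ I Q _ _ E hE ε K hLA γ ι _ _ g C X κ S₀ hκ hCX hHB hS₀ hC hdis hhyp
  obtain ⟨R, hR⟩ : ∃ R : ℝ, R = 2 ^ (prs ι).card * (κ * ∏ j, (X j : ℝ)) := ⟨_, rfl⟩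
  have hR0 : 0 ≤ R := by
    rw [hR]
    exact mul_nonneg (by positivity)
      (mul_nonneg hκ (Finset.prod_nonneg fun j _ => by positivity))
  -- facts on tuples
  have hinj : ∀ p ∈ Fintype.piFinset C, Function.Injective p := by
    intro p hp i j hij
    rw [Fintype.mem_piFinset] at hp
    by_contra hne
    have h1 := Finset.disjoint_left.1 (hdis i j hne) (hp i)
    rw [hij] at h1
    exact h1 (hp j)
  have hd : ∀ p ∈ Fintype.piFinset C, ∀ i, p i ∉ S₀ := by
    intro p hp i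
    rw [Fintype.mem_piFinset] at hp
    exact (hC i _ (hp i)).2.1
  have hpr : ∀ p ∈ Fintype.piFinset C, ∀ i, Pq (p i) := by
    intro p hp i
    rw [Fintype.mem_piFinset] at hp
    exact (hC i _ (hp i)).1
  have hg : ∀ p ∈ Fintype.piFinset C, ∀ i, γ (p i) = g i := by
    intro p hp i
    rw [Fintype.mem_piFinset] at hp
    exact (hC i _ (hp i)).2.2
  -- the part with given labels
  have h1 : ∀ β : ι → (S₀ → ZMod 2) × ZMod 2 × ZMod 2, LNC K S₀ g β →
      |(((Fintype.piFinset C).filter fun p => (fun i => lb S₀ (p i)) = β ∧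
          GdC γ E (S₀ ∪ univ.image p)).card : ℝ) -
        c2 ^ Fintype.card I *
          (((Fintype.piFinset C).filter fun p => (fun i => lb S₀ (p i)) = β).card : ℝ)| ≤
      ε * (((Fintype.piFinset C).filter fun p =>
        (fun i => lb S₀ (p i)) = β).card : ℝ) + R := by
    intro β hβ
    by_cases hex : ∃ p ∈ Fintype.piFinset C, (fun i => lb S₀ (p i)) = β
    swap
    · have e1 : ((Fintype.piFinset C).filter fun p =>
          (fun i => lb S₀ (p i)) = β) = ∅ := by
        rw [Finset.filter_eq_empty_iff]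
        intro p hp h
        exact hex ⟨p, hp, h⟩
      have e2 : ((Fintype.piFinset C).filter fun p => (fun i => lb S₀ (p i)) = β ∧
          GdC γ E (S₀ ∪ univ.image p)) = ∅ := by
        rw [Finset.filter_eq_empty_iff]
        rintro p hp ⟨h, -⟩
        exact hex ⟨p, hp, h⟩
      rw [e1, e2, Finset.card_empty, Nat.cast_zero, mul_zero, mul_zero, sub_zero, abs_zero,
        zero_add]
      exact hR0
    obtain ⟨q₀, hq₀, hq₀β⟩ := hex
    have hc2 := hhyp q₀ hq₀
    obtain ⟨C', hC'⟩ : ∃ C' : ι → Finset RR,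
        C' = fun i => (C i).filter fun q => lb S₀ q = β i := ⟨_, rfl⟩
    have hpi : (Fintype.piFinset C).filter (fun p => (fun i => lb S₀ (p i)) = β) =
        Fintype.piFinset C' := by
      ext p
      simp only [Finset.mem_filter, Fintype.mem_piFinset, hC']
      constructor
      · rintro ⟨h2, h3⟩ i
        exact ⟨h2 i, congrFun h3 i⟩
      · intro h2
        exact ⟨fun i => (h2 i).1, funext fun i => (h2 i).2⟩
    have htt : ∀ i, (β i).2.2 = tt (q₀ i) := by
      intro i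
      rw [← hq₀β]
      rfl
    have hH : HypC K (fun a : I => Wc γ E S₀ a) E g (fun u : S₀ => ss u)
        (fun u : S₀ => tt u) (fun i => (β i).2.1) (fun i => (β i).2.2)
        (fun u v : S₀ => cs v u) (fun (u : S₀) l => (β l).1 u) := by
      constructor
      · intro q
        rw [Fintype.card_coe]
        exact (hβ q).2
      · intro a
        simp only [htt]
        have h3 := hc2 a
        rw [sum_sys (hinj q₀ hq₀) (hd q₀ hq₀) (hg q₀ hq₀) a tt] at h3
        exact h3
      · intro u v huv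
        have h3 := hrec (u : RR) v (hS₀ u u.2) (hS₀ v v.2) (fun h => huv (Subtype.ext h))
        rw [← h3, add_comm]
      · intro q w e hw
        exact (hβ q).1 w e hw
    have h2 := hLA S₀ ι (fun a : I => Wc γ E S₀ a) g _ _ _ _ _ _ hH
    obtain ⟨P, hP⟩ : ∃ P : (prs ι → ZMod 2) → Prop, P = fun α => ∀ a : I,
        GdL (Wc γ E S₀ a) (Lc E g a) (fun u : S₀ => ss u)
          (fun u : S₀ => tt u) (fun i => (β i).2.1) (fun i => (β i).2.2)
          (fun u v : S₀ => cs v u) (fun (u : S₀) l => (β l).1 u)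
          (Pool.Agent.R426.QK.ext (fun i => (β i).2.2) α) := ⟨_, rfl⟩
    have h3 := hEQ ι C' X κ hκ
      (fun i => (Finset.card_le_card (by rw [hC']; exact Finset.filter_subset _ _)).trans (hCX i))
      (by rw [hC']; exact HB_sub hHB fun i q => lb S₀ q = β i) P
    have h4 : ((Fintype.piFinset C).filter fun p => (fun i => lb S₀ (p i)) = β ∧
        GdC γ E (S₀ ∪ univ.image p)) = ((Fintype.piFinset C').filter fun p =>
          P fun e => cs (p e.1.1) (p e.1.2)) := by
      rw [← hpi, Finset.filter_filter]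
      refine Finset.filter_congr fun p hp => ?_
      refine and_congr_right fun hl => ?_
      unfold GdC
      rw [hP]
      refine forall_congr' fun a => ?_
      rw [gd_sys hrec (hinj p hp) (hpr p hp) hS₀ (hd p hp) (hg p hp)]
      subst hl
      exact Iff.rfl
    have h5 : (((Fintype.piFinset C').card : ℕ) : ℝ) = ∏ j, ((C' j).card : ℝ) := by
      rw [Fintype.card_piFinset]
      push_cast
      rfl
    rw [h4, hpi, h5]
    rw [← hR] at h3
    obtain ⟨n, hn⟩ : ∃ n : ℝ, n = (((Fintype.piFinset C').filter fun p =>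
          P fun e => cs (p e.1.1) (p e.1.2)).card : ℝ) := ⟨_, rfl⟩
    obtain ⟨q, hq⟩ : ∃ q : ℝ, q = ((univ.filter P).card : ℝ) / 2 ^ (prs ι).card := ⟨_, rfl⟩
    obtain ⟨Pr, hPr⟩ : ∃ Pr : ℝ, Pr = ∏ j, ((C' j).card : ℝ) := ⟨_, rfl⟩
    obtain ⟨c, hc⟩ : ∃ c : ℝ, c = c2 ^ Fintype.card I := ⟨_, rfl⟩
    have hP0 : 0 ≤ Pr := by
      rw [hPr]
      exact Finset.prod_nonneg fun j _ => by positivity
    have e8 : ∀ n1 n2 : ℕ, n1 = n2 →
        |(n2 : ℝ) / 2 ^ (prs ι).card - c2 ^ Fintype.card I| ≤ ε →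
        |(n1 : ℝ) / 2 ^ (prs ι).card - c2 ^ Fintype.card I| ≤ ε := by
      rintro n1 n2 rfl h
      exact h
    have h2' : |q - c| ≤ ε := by
      rw [hq, hP, hc]
      exact e8 _ _ (KEY.fcc fun x _ => Iff.rfl) h2
    rw [← hn, ← hq, ← hPr] at h3
    rw [← hn, ← hPr, ← hc]
    have h6 : |n - c * Pr| ≤ |n - q * Pr| + |q - c| * Pr := by
      have h7 : n - c * Pr = (n - q * Pr) + (q - c) * Pr := by ring
      have h8 : |(q - c) * Pr| = |q - c| * Pr := by rw [abs_mul, abs_of_nonneg hP0]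
      rw [h7, ← h8]
      exact abs_add_le _ _
    have h7 : |q - c| * Pr ≤ ε * Pr := mul_le_mul_of_nonneg_right h2' hP0
    linarith
  -- sum over the labels
  obtain ⟨LL, hLL⟩ : ∃ LL : Finset (ι → (S₀ → ZMod 2) × ZMod 2 × ZMod 2),
      LL = univ.filter (fun β => LNC K S₀ g β) := ⟨_, rfl⟩
  have hfib : ∀ T : (ι → RR) → Prop,
      (((Fintype.piFinset C).filter fun p => NdC K γ S₀ (univ.image p) ∧ T p).card : ℝ) =
      ∑ β ∈ LL, (((Fintype.piFinset C).filter fun p =>
        (fun i => lb S₀ (p i)) = β ∧ T p).card : ℝ) := by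
    intro T
    rw [Finset.card_eq_sum_card_fiberwise (f := fun (p : ι → RR) (i : ι) => lb S₀ (p i))
      (t := LL) (by
        intro p hp
        rw [Finset.mem_coe, Finset.mem_filter] at hp
        rw [Finset.mem_coe, hLL, Finset.mem_filter]
        exact ⟨Finset.mem_univ _,
          (ndC_iff hrec (hinj p hp.1) (hpr p hp.1) hS₀ (hd p hp.1) (hg p hp.1) K).1 hp.2.1⟩)]
    push_cast
    refine Finset.sum_congr rfl fun β hβ => ?_
    rw [hLL, Finset.mem_filter] at hβ
    congr 2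
    ext p
    simp only [Finset.mem_filter]
    constructor
    · rintro ⟨⟨h3, h4, h4'⟩, h5⟩
      exact ⟨h3, h5, h4'⟩
    · rintro ⟨h3, h4, h5⟩
      refine ⟨⟨h3, ?_, h5⟩, h4⟩
      rw [ndC_iff hrec (hinj p h3) (hpr p h3) hS₀ (hd p h3) (hg p h3) K, h4]
      exact hβ.2
  have hf1 := hfib fun p => GdC γ E (S₀ ∪ univ.image p)
  have hf2 := hfib fun _ => True
  simp only [and_true] at hf2
  rw [hf1, hf2, Finset.mul_sum, ← Finset.sum_sub_distrib]
  refine (Finset.abs_sum_le_sum_abs _ _).trans ?_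
  refine (Finset.sum_le_sum fun β hβ => h1 β (by
    rw [hLL] at hβ
    exact (Finset.mem_filter.1 hβ).2)).trans ?_
  rw [Finset.sum_add_distrib, ← Finset.mul_sum, Finset.sum_const, nsmul_eq_mul]
  have h5 : ((LL.card : ℕ) : ℝ) ≤ 2 ^ ((S₀.card + 2) * Fintype.card ι) := by
    have h6 : LL.card ≤ Fintype.card (ι → (S₀ → ZMod 2) × ZMod 2 × ZMod 2) :=
      Finset.card_le_univ _
    rw [Fintype.card_fun, Fintype.card_prod, Fintype.card_prod, Fintype.card_fun, ZMod.card,
      Fintype.card_coe] at h6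
    have h7 : 2 ^ S₀.card * (2 * 2) = 2 ^ (S₀.card + 2) := by ring
    rw [h7, ← pow_mul] at h6
    exact_mod_cast h6
  have h6 := mul_le_mul_of_nonneg_right h5 hR0
  rw [pow_add, mul_assoc, ← hR]
  linarith

end Pool.Agent.N869.QT.BOXC
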