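import Pool.Agent.R426.QK.KEY
import Pool.Agent.N869.QT.Stm

/-!
# Project QT (helper869): the sum over the boxes, for a coloured set of primes

Port of `Pool/Agent/R426/QJ/KEY.lean` and `Pool/Agent/R426/QK/KEY1.lean`, `KEY2.lean`, `KEY.lean`
(helper33, helper983) to coloured sets.
-/

set_option autoImplicit false
set_option linter.unusedVariables false
set_option linter.unusedSectionVars false

namespace Pool.Agent.N869.QT.KEYC

open Finset
open Pool.Agent.Y698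
open Pool.Agent.Y698.SG hiding PD
open Pool.Agent.Y703.CX (jj XX)
open Pool.Agent.R426.QK
open Pool.Agent.R426.QK.KEY (fcc card_sub ph ph_div ph_mod le_XX nrm_one_le
  prod_split ph_inj sm_disj sm_union hb_box card_QB_le sum_inv prs_card)
open Pool.Agent.N869.QT
open Pool.Agent.N869.QT.L (GdL Lc HypC Fam)
open Pool.Agent.N869.QT.G (sys exC pr)
open scoped Classical

variable {Q : Type}

theorem mem_SA {X : ℕ} {S : Finset RR} : S ∈ SA X ↔ (∀ π ∈ S, Pq π) ∧ ∏ π ∈ S, nrm π ≤ X := by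
  unfold SA
  rw [Finset.mem_filter, Finset.mem_powerset]
  constructor
  · exact fun h => ⟨fun π hπ => (mem_QB.1 (h.1 hπ)).2, h.2⟩
  · intro h
    refine ⟨fun p hp => ?_, h.2⟩
    rw [mem_QB]
    have h1 : nrm p ≤ ∏ q ∈ S, nrm q :=
      Finset.single_le_prod' (f := fun q => nrm q) (fun q hq => nrm_one_le (h.1 q hq)) hp
    exact ⟨h1.trans h.2, h.1 p hp⟩

/-- the label of a large prime: the label of `KEY` and the colour -/
noncomputable def phc (γ : RR → Q) (H : ℕ) (π : RR) : ℕ × Q := (ph H π, γ π)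

/-- the key of a set -/
noncomputable def kyc (γ : RR → Q) (z H : ℕ) (S : Finset RR) : Finset RR × Finset (ℕ × Q) :=
  (sm z S, (la z S).image (phc γ H))

/-- the value of `tt` from the label -/
def tl (i : ℕ) : ZMod 2 := if i % 4 = 3 then 1 else 0

theorem tl_ph (H : ℕ) (π : RR) : tl (ph H π) = tt π := by
  unfold tl tt
  rw [ph_mod]

theorem phc_inj {γ : RR → Q} {H : ℕ} {L : Finset RR} (h : Set.InjOn (bl H) (L : Set RR)) :
    Set.InjOn (phc γ H) (L : Set RR) := fun a ha b hb hab =>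
  ph_inj h ha hb (congrArg Prod.fst hab)

/-- the primes of a block with one colour -/
noncomputable def CCc (γ : RR → Q) (z H : ℕ) (i : ℕ × Q) : Finset RR :=
  (QB (XX H (i.1 / 4))).filter fun π => z < nrm π ∧ phc γ H π = i

theorem mem_CCc {γ : RR → Q} {z H : ℕ} (hH : 1 ≤ H) {i : ℕ × Q} {π : RR} :
    π ∈ CCc γ z H i ↔ Pq π ∧ z < nrm π ∧ phc γ H π = i := by
  unfold CCc
  rw [Finset.mem_filter, mem_QB]
  constructor
  · exact fun h => ⟨h.1.2, h.2⟩
  · intro h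
    refine ⟨⟨?_, h.1⟩, h.2⟩
    have := le_XX hH (nrm_one_le h.1)
    have h1 : jj H (nrm π) = i.1 / 4 := by
      rw [← h.2.2]
      exact (ph_div H π).symm
    rwa [h1] at this

/-- the class condition on a key -/
def KC {I : Type} (γ : RR → Q) (E : I → Finset Q) (S₀ : Finset RR) (J : Finset (ℕ × Q)) : Prop :=
  ∀ a, ∑ π ∈ S₀.filter (fun π => γ π ∈ E a), tt π +
    ∑ i ∈ J.filter (fun i => i.2 ∈ E a), tl i.1 = 0

theorem clc_key {I : Type} {γ : RR → Q} {E : I → Finset Q} {z H : ℕ} {S : Finset RR}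
    (h : Set.InjOn (bl H) (la z S : Set RR)) :
    ClC γ E S ↔ KC γ E (sm z S) ((la z S).image (phc γ H)) := by
  unfold ClC KC
  refine forall_congr' fun a => ?_
  have e : ∑ π ∈ sys γ E S a, tt π = ∑ π ∈ (sm z S).filter (fun π => γ π ∈ E a), tt π +
      ∑ i ∈ ((la z S).image (phc γ H)).filter (fun i => i.2 ∈ E a), tl i.1 := by
    have e1 : sys γ E S a = (sm z S).filter (fun π => γ π ∈ E a) ∪
        (la z S).filter (fun π => γ π ∈ E a) := by
      rw [← Finset.filter_union, sm_union]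
      rfl
    rw [e1, Finset.sum_union (Finset.disjoint_filter_filter (sm_disj z S)), Finset.filter_image]
    congr 1
    rw [Finset.sum_image]
    · refine Finset.sum_congr ?_ fun π _ => (tl_ph H π).symm
      rfl
    · intro x hx y hy hxy
      rw [Finset.mem_coe, Finset.mem_filter] at hx hy
      exact phc_inj h (Finset.mem_coe.2 hx.1) (Finset.mem_coe.2 hy.1) hxy
  rw [e]

/-- the conditions on a key -/
def CdC {I I' : Type} (γ : RR → Q) (E : I → Finset Q) (F : I' → Finset Q) (X K H : ℕ)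
    (S₀ : Finset RR) (J : Finset (ℕ × Q)) : Prop :=
  (KC γ E S₀ J ∧ KC γ F S₀ J) ∧
  S₀.card + J.card ≤ K ∧ (∏ π ∈ S₀, nrm π) * ∏ i ∈ J, XX H (i.1 / 4) ≤ X

section main

variable {I I' : Type} {γ : RR → Q} {E : I → Finset Q} {F : I' → Finset Q}

theorem mem_RgC {X z H K : ℕ} (hH : 1 ≤ H) {S : Finset RR} :
    S ∈ RgC γ E F X z H K ↔ (∀ p ∈ S, Pq p) ∧ Set.InjOn (bl H) (la z S : Set RR) ∧
      CdC γ E F X K H (kyc γ z H S).1 (kyc γ z H S).2 := by
  unfold RgC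
  rw [Finset.mem_filter, mem_SA]
  have hk1 : (kyc γ z H S).1 = sm z S := rfl
  have hk2 : (kyc γ z H S).2 = (la z S).image (phc γ H) := rfl
  rw [hk1, hk2]
  have key : Set.InjOn (bl H) (la z S : Set RR) →
      (S.card = (sm z S).card + ((la z S).image (phc γ H)).card) ∧
      (∏ i ∈ (la z S).image (phc γ H), XX H (i.1 / 4) = ∏ p ∈ la z S, XX H (bl H p)) := by
    intro h
    refine ⟨?_, ?_⟩
    · rw [Finset.card_image_of_injOn (phc_inj h), ← Finset.card_union_of_disjoint (sm_disj z S),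
        sm_union]
    · rw [Finset.prod_image (fun a ha b hb hab => phc_inj h ha hb hab)]
      exact Finset.prod_congr rfl fun p _ => by
        show XX H (ph H p / 4) = _
        rw [ph_div]
  unfold CdC
  constructor
  · rintro ⟨⟨h1, h5⟩, h6, h7, h8, h9, h10⟩
    obtain ⟨k3, k4⟩ := key h6
    refine ⟨h1, h6, ⟨(clc_key h6).1 h9, (clc_key h6).1 h10⟩, ?_, ?_⟩
    · rw [← k3]; exact h7
    · rw [k4]; exact h8
  · rintro ⟨h1, h6, ⟨h9, h10⟩, h7, h8⟩
    obtain ⟨k3, k4⟩ := key h6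
    rw [← k3] at h7
    rw [k4] at h8
    refine ⟨⟨h1, ?_⟩, h6, h7, h8, (clc_key h6).2 h9, (clc_key h6).2 h10⟩
    refine le_trans ?_ h8
    rw [prod_split z S]
    apply Nat.mul_le_mul_left
    exact Finset.prod_le_prod' fun p hp =>
      le_XX hH (nrm_one_le (h1 p (Finset.mem_filter.1 hp).1))

section fill
variable {z H : ℕ} {S₀ : Finset RR} {J : Finset (ℕ × Q)} {p : J → RR}

theorem sm_fill (hH : 1 ≤ H) (h₀ : ∀ q ∈ S₀, nrm q ≤ z) (hp : ∀ i : J, p i ∈ CCc γ z H i) :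
    sm z (S₀ ∪ univ.image p) = S₀ := by
  ext q
  unfold sm
  rw [Finset.mem_filter, Finset.mem_union, Finset.mem_image]
  constructor
  · rintro ⟨h | ⟨i, -, rfl⟩, h2⟩
    · exact h
    · have := ((mem_CCc hH).1 (hp i)).2.1
      omega
  · exact fun h => ⟨Or.inl h, h₀ q h⟩

theorem la_fill (hH : 1 ≤ H) (h₀ : ∀ q ∈ S₀, nrm q ≤ z) (hp : ∀ i : J, p i ∈ CCc γ z H i) :
    la z (S₀ ∪ univ.image p) = univ.image p := by
  ext q
  unfold la
  rw [Finset.mem_filter, Finset.mem_union, Finset.mem_image]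
  constructor
  · rintro ⟨h | h, h2⟩
    · exact absurd (h₀ q h) h2
    · exact h
  · rintro ⟨i, -, rfl⟩
    have := ((mem_CCc hH).1 (hp i)).2.1
    exact ⟨Or.inr ⟨i, Finset.mem_univ _, rfl⟩, by omega⟩

theorem ph_fill (hH : 1 ≤ H) (hp : ∀ i : J, p i ∈ CCc γ z H i) :
    (univ.image p).image (phc γ H) = J := by
  ext k
  rw [Finset.mem_image]
  constructor
  · rintro ⟨q, hq, rfl⟩
    rw [Finset.mem_image] at hq
    obtain ⟨i, -, rfl⟩ := hq
    rw [((mem_CCc hH).1 (hp i)).2.2]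
    exact i.2
  · intro hk
    exact ⟨p ⟨k, hk⟩, Finset.mem_image_of_mem _ (Finset.mem_univ _),
      ((mem_CCc hH).1 (hp ⟨k, hk⟩)).2.2⟩

theorem ky_fill (hH : 1 ≤ H) (h₀ : ∀ q ∈ S₀, nrm q ≤ z) (hp : ∀ i : J, p i ∈ CCc γ z H i) :
    kyc γ z H (S₀ ∪ univ.image p) = (S₀, J) := by
  unfold kyc
  rw [sm_fill hH h₀ hp, la_fill hH h₀ hp, ph_fill hH hp]

end fill

/-- the facts on the key of a regular set -/
theorem key_facts {X z H K : ℕ} (hH : 1 ≤ H) {S₀ : Finset RR} {J : Finset (ℕ × Q)}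
    (hkey : (S₀, J) ∈ (RgC γ E F X z H K).image (kyc γ z H)) :
    (∀ q ∈ S₀, Pq q) ∧ (∀ q ∈ S₀, nrm q ≤ z) ∧
      Set.InjOn (fun i : ℕ × Q => i.1 / 4) (J : Set (ℕ × Q)) ∧
      CdC γ E F X K H S₀ J ∧ (∀ i ∈ J, z ≤ XX H (i.1 / 4) ∧
        ∃ q : RR, Pq q ∧ z < nrm q ∧ nrm q ≤ X ∧ phc γ H q = i) := by
  rw [Finset.mem_image] at hkey
  obtain ⟨W, hW, hWk⟩ := hkey
  have hWX : ∏ p ∈ W, nrm p ≤ X := by
    unfold RgC at hW
    rw [Finset.mem_filter, mem_SA] at hW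
    exact hW.1.2
  rw [mem_RgC hH, hWk] at hW
  obtain ⟨h1, h2, h3⟩ := hW
  have hS₀ : sm z W = S₀ := congrArg Prod.fst hWk
  have hJ : (la z W).image (phc γ H) = J := congrArg Prod.snd hWk
  refine ⟨?_, ?_, ?_, h3, ?_⟩
  · intro q hq
    rw [← hS₀] at hq
    exact h1 q (Finset.mem_filter.1 hq).1
  · intro q hq
    rw [← hS₀] at hq
    exact (Finset.mem_filter.1 hq).2
  · intro a ha b hb hab
    rw [Finset.mem_coe, ← hJ, Finset.mem_image] at ha hb
    obtain ⟨x, hx, rfl⟩ := ha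
    obtain ⟨y, hy, rfl⟩ := hb
    have hab' : bl H x = bl H y := by
      rw [← ph_div, ← ph_div]
      exact hab
    have h4 : x = y := h2 (Finset.mem_coe.2 hx) (Finset.mem_coe.2 hy) hab'
    rw [h4]
  · intro i hi
    rw [← hJ, Finset.mem_image] at hi
    obtain ⟨q, hq, rfl⟩ := hi
    have hqW := (Finset.mem_filter.1 hq).1
    have hqz := (Finset.mem_filter.1 hq).2
    have hqp := h1 q hqW
    have hqX : nrm q ≤ X := (Finset.single_le_prod' (f := fun q => nrm q)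
      (fun q hq => nrm_one_le (h1 q hq)) hqW).trans hWX
    refine ⟨?_, q, hqp, by omega, hqX, rfl⟩
    show z ≤ XX H (ph H q / 4)
    rw [ph_div]
    have h5 : nrm q ≤ XX H (bl H q) := le_XX hH (nrm_one_le hqp)
    omega

theorem key_bij {X z H K : ℕ} (hH : 1 ≤ H) {S₀ : Finset RR} {J : Finset (ℕ × Q)}
    (hkey : (S₀, J) ∈ (RgC γ E F X z H K).image (kyc γ z H)) (P : Finset RR → Prop) :
    ((Fintype.piFinset fun i : J => CCc γ z H i).filter fun p => P (S₀ ∪ univ.image p)).card =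
      ((RgC γ E F X z H K).filter fun S => kyc γ z H S = (S₀, J) ∧ P S).card := by
  obtain ⟨h₀O, h₀, hJi, hCd, hJf⟩ := key_facts hH hkey
  apply Finset.card_bij (fun (p : J → RR) _ => S₀ ∪ univ.image p)
  · intro p hp
    rw [Finset.mem_filter, Fintype.mem_piFinset] at hp
    obtain ⟨hp, hP⟩ := hp
    have hk := ky_fill hH h₀ hp
    rw [Finset.mem_filter]
    refine ⟨?_, hk, hP⟩
    rw [mem_RgC hH, hk]
    refine ⟨?_, ?_, hCd⟩
    · intro q hq
      rw [Finset.mem_union, Finset.mem_image] at hq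
      rcases hq with hq | ⟨i, -, rfl⟩
      · exact h₀O q hq
      · exact ((mem_CCc hH).1 (hp i)).1
    · rw [la_fill hH h₀ hp]
      intro a ha b hb hab
      rw [Finset.mem_coe, Finset.mem_image] at ha hb
      obtain ⟨i, -, rfl⟩ := ha
      obtain ⟨j, -, rfl⟩ := hb
      have h1 := ((mem_CCc hH).1 (hp i)).2.2
      have h2 := ((mem_CCc hH).1 (hp j)).2.2
      have h3 : i.1.1 / 4 = j.1.1 / 4 := by
        rw [← h1, ← h2]
        show ph H (p i) / 4 = ph H (p j) / 4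
        rw [ph_div, ph_div]
        exact hab
      have h4 : i = j := Subtype.ext (hJi (Finset.mem_coe.2 i.2) (Finset.mem_coe.2 j.2) h3)
      rw [h4]
  · intro p hp p' hp' h
    rw [Finset.mem_filter, Fintype.mem_piFinset] at hp hp'
    have h1 := la_fill hH h₀ hp.1
    rw [h, la_fill hH h₀ hp'.1] at h1
    funext i
    have h2 : p i ∈ univ.image p' := by
      rw [h1]
      exact Finset.mem_image_of_mem _ (Finset.mem_univ _)
    rw [Finset.mem_image] at h2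
    obtain ⟨j, -, hj⟩ := h2
    have h3 := ((mem_CCc hH).1 (hp.1 i)).2.2
    have h4 := ((mem_CCc hH).1 (hp'.1 j)).2.2
    rw [hj, h3] at h4
    rw [← hj, Subtype.ext h4]
  · intro S hS
    rw [Finset.mem_filter] at hS
    obtain ⟨hSR, hSk, hSP⟩ := hS
    rw [mem_RgC hH] at hSR
    obtain ⟨hSO, hSI, -⟩ := hSR
    have hk1 : sm z S = S₀ := congrArg Prod.fst hSk
    have hk2 : (la z S).image (phc γ H) = J := congrArg Prod.snd hSk
    have hex : ∀ i : J, ∃ q ∈ la z S, phc γ H q = i := by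
      rintro ⟨i, hi⟩
      rw [← hk2, Finset.mem_image] at hi
      exact hi
    choose p hp1 hp2 using hex
    have him : univ.image p = la z S := by
      ext q
      rw [Finset.mem_image]
      constructor
      · rintro ⟨i, -, rfl⟩
        exact hp1 i
      · intro hq
        have hjq : phc γ H q ∈ J := by
          rw [← hk2]
          exact Finset.mem_image_of_mem _ hq
        exact ⟨⟨phc γ H q, hjq⟩, Finset.mem_univ _, phc_inj hSI (Finset.mem_coe.2 (hp1 _))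
          (Finset.mem_coe.2 hq) (hp2 ⟨phc γ H q, hjq⟩)⟩
    have hSe : S₀ ∪ univ.image p = S := by rw [him, ← hk1, sm_union]
    refine ⟨p, ?_, hSe⟩
    rw [Finset.mem_filter, Fintype.mem_piFinset, hSe]
    refine ⟨fun i => (mem_CCc hH).2 ⟨hSO _ (Finset.mem_filter.1 (hp1 i)).1,
      not_le.1 (Finset.mem_filter.1 (hp1 i)).2, hp2 i⟩, hSP⟩

/-- the class condition for the sets of a box -/
theorem box_cl {X z H K : ℕ} (hH : 1 ≤ H) {S₀ : Finset RR} {J : Finset (ℕ × Q)}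
    (hkey : (S₀, J) ∈ (RgC γ E F X z H K).image (kyc γ z H)) {p : J → RR}
    (hp : p ∈ Fintype.piFinset fun i : J => CCc γ z H i) : ClC γ E (S₀ ∪ univ.image p) := by
  obtain ⟨h₀O, h₀, hJi, hCd, hJf⟩ := key_facts hH hkey
  rw [Fintype.mem_piFinset] at hp
  have hin : Set.InjOn (bl H) (la z (S₀ ∪ univ.image p) : Set RR) := by
    rw [la_fill hH h₀ hp]
    intro a ha b hb hab
    rw [Finset.mem_coe, Finset.mem_image] at ha hb
    obtain ⟨i, -, rfl⟩ := ha
    obtain ⟨j, -, rfl⟩ := hb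
    have h1 := ((mem_CCc hH).1 (hp i)).2.2
    have h2 := ((mem_CCc hH).1 (hp j)).2.2
    have h3 : i.1.1 / 4 = j.1.1 / 4 := by
      rw [← h1, ← h2]
      show ph H (p i) / 4 = ph H (p j) / 4
      rw [ph_div, ph_div]
      exact hab
    have h4 : i = j := Subtype.ext (hJi (Finset.mem_coe.2 i.2) (Finset.mem_coe.2 j.2) h3)
    rw [h4]
  rw [clc_key hin, sm_fill hH h₀ hp, la_fill hH h₀ hp, ph_fill hH hp]
  exact hCd.1.1

/-- the statement for the boxes with the decidability of equality as a variable -/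
theorem box_dec [Fintype I] [Fintype Q] (hR : RecP) (hE : S_EQ) (hB : S_BOXC) (hF : Fam E) {ε : ℝ}
    {K : ℕ} (hL : LAEC E ε K) (ι : Type)
    [Fintype ι] [inst : DecidableEq ι]
    (lo : LinearOrder ι) (g : ι → Q) (C : ι → Finset RR) (X : ι → ℕ) (κ : ℝ) (S₀ : Finset RR)
    (h1 : 0 ≤ κ)
    (h2 : ∀ i, (C i).card ≤ X i) (h3 : HB C X κ) (h4 : ∀ u ∈ S₀, Pq u)
    (h5 : ∀ i, ∀ π ∈ C i, Pq π ∧ π ∉ S₀ ∧ γ π = g i) (h6 : ∀ i l, i ≠ l → Disjoint (C i) (C l))
    (h7 : ∀ p ∈ Fintype.piFinset C, ClC γ E (S₀ ∪ univ.image p)) :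
    |(((Fintype.piFinset C).filter fun p => NdC K γ S₀ (univ.image p) ∧
        GdC γ E (S₀ ∪ univ.image p)).card : ℝ) -
      c2 ^ Fintype.card I *
        (((Fintype.piFinset C).filter fun p => NdC K γ S₀ (univ.image p)).card : ℝ)| ≤
    ε * (((Fintype.piFinset C).filter fun p => NdC K γ S₀ (univ.image p)).card : ℝ) +
    2 ^ ((S₀.card + 2) * Fintype.card ι + (prs ι).card) * (κ * ∏ j, (X j : ℝ)) := by
  have e : inst = fun a b => lo.toDecidableEq a b := Subsingleton.elim _ _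
  subst e
  exact hB hR hE I Q E hF ε K hL γ ι g C X κ S₀ h1 h2 h3 h4 h5 h6 h7

theorem per_key [Fintype I] [Fintype Q] (hR : RecP) (hE : S_EQ) (hB : S_BOXC) (hF : Fam E) {ε : ℝ}
    {K : ℕ} (hL : LAEC E ε K)
    (hε : 0 < ε) {C₁ : ℝ}
    (hb1 : ∀ (P Q : Finset RR) (A B z : ℕ) (c d : RR → ℂ),
      (∀ π ∈ P, Pq π ∧ nrm π ≤ A) → (∀ ρ ∈ Q, Pq ρ ∧ nrm ρ ≤ B) → Disjoint P Q →
      1 ≤ z → z ≤ A → z ≤ B → (∀ π, ‖c π‖ ≤ 1) → (∀ ρ, ‖d ρ‖ ≤ 1) →
      ‖∑ π ∈ P, ∑ ρ ∈ Q, c π * d ρ * ez (cs π ρ)‖ ^ 24 * z ≤ C₁ * ((A : ℝ) * B) ^ 24)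
    {X z H k : ℕ} {κ : ℝ} (hH : 1 ≤ H) (hz : 1 ≤ z) (hκ : 0 ≤ κ)
    (h1 : C₁ ≤ κ ^ 24 * z)
    {S₀ : Finset RR} {J : Finset (ℕ × Q)}
    (hkey : (S₀, J) ∈ (RgC γ E F X z H k).image (kyc γ z H)) :
    |(((RgC γ E F X z H k).filter fun S => kyc γ z H S = (S₀, J) ∧
        (NdC K γ (sm z S) (la z S) ∧ GdC γ E S)).card : ℝ) -
      c2 ^ Fintype.card I * (((RgC γ E F X z H k).filter fun S => kyc γ z H S = (S₀, J) ∧
        NdC K γ (sm z S) (la z S)).card : ℝ)| ≤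
    ε * (((RgC γ E F X z H k).filter fun S => kyc γ z H S = (S₀, J) ∧ True).card : ℝ) +
      (3 ^ (9 * k ^ 2) * κ) * (X * (1 / ((∏ p ∈ S₀, nrm p : ℕ) : ℝ))) := by
  obtain ⟨h₀O, h₀, hJi, hCd, hJf⟩ := key_facts hH hkey
  obtain ⟨-, c4, c5⟩ := hCd
  have hcJ : Fintype.card J = J.card := Fintype.card_coe J
  have hCmem : ∀ i : J, ∀ p ∈ CCc γ z H i, Pq p ∧ z < nrm p ∧ nrm p ≤ XX H (i.1.1 / 4) := by
    intro i p hp
    obtain ⟨k1, k2, k3⟩ := (mem_CCc hH).1 hp
    refine ⟨k1, k2, ?_⟩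
    unfold CCc at hp
    rw [Finset.mem_filter, mem_QB] at hp
    exact hp.1.1
  have hdis : ∀ i l : J, i ≠ l → Disjoint (CCc γ z H (i : ℕ × Q)) (CCc γ z H (l : ℕ × Q)) := by
    intro i l hil
    rw [Finset.disjoint_left]
    intro p hp hp'
    have h5 := ((mem_CCc hH).1 hp).2.2
    have h6 := ((mem_CCc hH).1 hp').2.2
    exact hil (Subtype.ext (h5.symm.trans h6))
  have hzX : ∀ i : J, z ≤ XX H (i.1.1 / 4) := fun i => (hJf i i.2).1
  have hHB : HB (fun i : J => CCc γ z H i) (fun i : J => 16 * XX H (i.1.1 / 4)) κ :=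
    hb_box hb1 _ _ hz hκ h1 (fun i => by have := hzX i; omega)
      (fun i p hp => by
        obtain ⟨k1, k2, k3⟩ := hCmem i p hp
        exact ⟨k1, by omega⟩) hdis
  have hcard : ∀ i : J, (CCc γ z H (i : ℕ × Q)).card ≤ 16 * XX H (i.1.1 / 4) := by
    intro i
    refine (Finset.card_filter_le _ _).trans (card_QB_le ?_)
    have := hzX i
    omega
  let lo : LinearOrder J := LinearOrder.lift' (Fintype.equivFin J) (Fintype.equivFin J).injective
  have hbox := box_dec hR hE hB hF hL J lo (fun i : J => i.1.2) (fun i : J => CCc γ z H i)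
    (fun i : J => 16 * XX H (i.1.1 / 4)) κ S₀ hκ hcard hHB h₀O (fun i p hp => by
      obtain ⟨k1, k2, k3⟩ := hCmem i p hp
      refine ⟨k1, fun h => ?_, ?_⟩
      · have := h₀ p h
        omega
      · have h5 := ((mem_CCc hH).1 hp).2.2
        rw [← h5]
        rfl) hdis (fun p hp => box_cl hH hkey hp)
  have e1 : (((Fintype.piFinset fun i : J => CCc γ z H i).filter
      fun p => NdC K γ S₀ (univ.image p) ∧ GdC γ E (S₀ ∪ univ.image p)).card) =
      ((RgC γ E F X z H k).filter fun S => kyc γ z H S = (S₀, J) ∧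
        (NdC K γ (sm z S) (la z S) ∧ GdC γ E S)).card := by
    refine Eq.trans (fcc ?_) ((key_bij hH hkey
      (fun S => NdC K γ (sm z S) (la z S) ∧ GdC γ E S)).trans (fcc fun _ _ => Iff.rfl))
    intro p hp
    rw [Fintype.mem_piFinset] at hp
    rw [sm_fill hH h₀ hp, la_fill hH h₀ hp]
  have e2 : (((Fintype.piFinset fun i : J => CCc γ z H i).filter
      fun p => NdC K γ S₀ (univ.image p)).card) =
      ((RgC γ E F X z H k).filter fun S => kyc γ z H S = (S₀, J) ∧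
        NdC K γ (sm z S) (la z S)).card := by
    refine Eq.trans (fcc ?_) ((key_bij hH hkey (fun S => NdC K γ (sm z S) (la z S))).trans
      (fcc fun _ _ => Iff.rfl))
    intro p hp
    rw [Fintype.mem_piFinset] at hp
    rw [sm_fill hH h₀ hp, la_fill hH h₀ hp]
  rw [← e1, ← e2]
  have e3 : (((Fintype.piFinset fun i : J => CCc γ z H i).filter
      fun p => NdC K γ S₀ (univ.image p)).card : ℝ) ≤
      (((RgC γ E F X z H k).filter fun S => kyc γ z H S = (S₀, J) ∧ True).card : ℝ) := by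
    rw [e2]
    have : (RgC γ E F X z H k).filter (fun S => kyc γ z H S = (S₀, J) ∧
        NdC K γ (sm z S) (la z S)) ⊆
        (RgC γ E F X z H k).filter fun S => kyc γ z H S = (S₀, J) ∧ True := by
      intro S hS
      rw [Finset.mem_filter] at hS ⊢
      exact ⟨hS.1, hS.2.1, trivial⟩
    exact_mod_cast Finset.card_le_card this
  refine hbox.trans ?_
  have hJK : J.card ≤ k := by omega
  have hSK : S₀.card ≤ k := by omega
  obtain ⟨m, hm⟩ : ∃ m : ℕ, m = (@prs J _ lo).card := ⟨_, rfl⟩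
  have hpr : m ≤ k * k := by
    rw [hm]
    refine (@prs_card J _ lo).trans ?_
    rw [hcJ]
    exact Nat.mul_le_mul hJK hJK
  rw [← hm]
  have hN0 : (0 : ℝ) < ((∏ p ∈ S₀, nrm p : ℕ) : ℝ) := by
    exact_mod_cast Finset.prod_pos fun p hp => nrm_one_le (h₀O p hp)
  have hprod : ∏ j : J, ((16 * XX H (j.1.1 / 4) : ℕ) : ℝ) ≤
      3 ^ (3 * k) * (X * (1 / ((∏ p ∈ S₀, nrm p : ℕ) : ℝ))) := by
    have h5 : ∏ j : J, ((16 * XX H (j.1.1 / 4) : ℕ) : ℝ) =
        16 ^ J.card * ((∏ i ∈ J, XX H (i.1 / 4) : ℕ) : ℝ) := by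
      rw [← Finset.prod_coe_sort J (fun i => XX H (i.1 / 4))]
      push_cast
      rw [Finset.prod_mul_distrib, Finset.prod_const, Finset.card_univ, hcJ]
    have h6 : ((∏ i ∈ J, XX H (i.1 / 4) : ℕ) : ℝ) ≤ X * (1 / ((∏ p ∈ S₀, nrm p : ℕ) : ℝ)) := by
      rw [mul_one_div, le_div_iff₀ hN0, mul_comm]
      exact_mod_cast c5
    have h7 : (16 : ℝ) ^ J.card ≤ 3 ^ (3 * k) := by
      calc (16 : ℝ) ^ J.card ≤ 27 ^ J.card := pow_le_pow_left₀ (by norm_num) (by norm_num) _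
        _ = 3 ^ (3 * J.card) := by rw [pow_mul]; norm_num
        _ ≤ 3 ^ (3 * k) := pow_le_pow_right₀ (by norm_num) (by omega)
    rw [h5]
    gcongr
  have hpw : (2 : ℝ) ^ ((S₀.card + 2) * Fintype.card J + m) * 3 ^ (3 * k) ≤
      3 ^ (9 * k ^ 2) := by
    refine (mul_le_mul_of_nonneg_right (pow_le_pow_left₀ (by norm_num)
      (show (2 : ℝ) ≤ 3 by norm_num) _) (by positivity)).trans ?_
    rw [← pow_add]
    apply pow_le_pow_right₀ (by norm_num)
    rw [hcJ]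
    have h5 : S₀.card * J.card ≤ k * k := Nat.mul_le_mul hSK hJK
    have h6 : k ≤ k * k := by
      rcases Nat.eq_zero_or_pos k with h | h
      · rw [h]
      · exact Nat.le_mul_of_pos_left k h
    nlinarith
  refine add_le_add ?_ ?_
  · exact mul_le_mul_of_nonneg_left e3 hε.le
  · have hX1 : (0 : ℝ) ≤ X * (1 / ((∏ p ∈ S₀, nrm p : ℕ) : ℝ)) := by positivity
    calc (2 : ℝ) ^ ((S₀.card + 2) * Fintype.card J + m) *
        (κ * ∏ j : J, ((16 * XX H (j.1.1 / 4) : ℕ) : ℝ)) ≤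
        2 ^ ((S₀.card + 2) * Fintype.card J + m) *
          (κ * (3 ^ (3 * k) * (X * (1 / ((∏ p ∈ S₀, nrm p : ℕ) : ℝ))))) := by gcongr
      _ = (2 ^ ((S₀.card + 2) * Fintype.card J + m) * 3 ^ (3 * k)) *
          (κ * (X * (1 / ((∏ p ∈ S₀, nrm p : ℕ) : ℝ)))) := by ring
      _ ≤ 3 ^ (9 * k ^ 2) * (κ * (X * (1 / ((∏ p ∈ S₀, nrm p : ℕ) : ℝ)))) := by gcongr
      _ = _ := by ring

theorem keg_err [Fintype Q] {X z H k N : ℕ} {κ C : ℝ} (hX : 1 ≤ X) (hH : 1 ≤ H) (hz : 1 ≤ z)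
    (hκ : 0 ≤ κ) (hN : (H : ℝ) * Real.log X < N) (hC : 4 * (Fintype.card Q : ℝ) + 1 ≤ C)
    {T : Finset (Finset RR × Finset (ℕ × Q))}
    (hT : ∀ k' ∈ T, k' ∈ (RgC γ E F X z H k).image (kyc γ z H)) :
    ∑ k' ∈ T, (3 ^ (9 * k ^ 2) * κ) * (X * (1 / ((∏ p ∈ k'.1, nrm p : ℕ) : ℝ))) ≤
      (C * (N + 1) : ℝ) ^ k * (3 ^ (9 * k ^ 2 + 9) * κ) * (X * (1 + Real.log X)) := by
  -- the errors
  set U : Finset (ℕ × Q) := range (4 * N) ×ˢ univ with hU
  set A := T.image Prod.fst with hA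
  have hAp : ∀ S ∈ A, (∀ p ∈ S, Pq p) ∧ ∏ p ∈ S, nrm p ≤ X := by
    intro S hS
    rw [hA, Finset.mem_image] at hS
    obtain ⟨⟨S₀, J⟩, hk, rfl⟩ := hS
    obtain ⟨h₀O, h₀, hJi, hCd, hJf⟩ := key_facts hH (hT _ hk)
    refine ⟨fun p hp => h₀O p hp, ?_⟩
    have h4 : 1 ≤ ∏ i ∈ J, XX H (i.1 / 4) := by
      apply Nat.one_le_iff_ne_zero.2
      rw [Finset.prod_ne_zero_iff]
      intro i hi
      exact Nat.one_le_iff_ne_zero.1 (hz.trans (hJf i hi).1)
    calc ∏ p ∈ S₀, nrm p = (∏ p ∈ S₀, nrm p) * 1 := (mul_one _).symm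
      _ ≤ (∏ p ∈ S₀, nrm p) * ∏ i ∈ J, XX H (i.1 / 4) := Nat.mul_le_mul_left _ h4
      _ ≤ X := hCd.2.2
  have hsub : T ⊆ A ×ˢ (U.powerset.filter fun J => J.card ≤ k) := by
    intro k' hk
    obtain ⟨S₀, J⟩ := k'
    rw [Finset.mem_product, Finset.mem_filter, Finset.mem_powerset]
    obtain ⟨h₀O, h₀, hJi, hCd, hJf⟩ := key_facts hH (hT _ hk)
    have hc := hCd.2.1
    refine ⟨Finset.mem_image_of_mem _ hk, ?_, (Nat.le_add_left _ _).trans hc⟩
    intro i hi
    obtain ⟨k2, q, hq, hzq, hqX, hqi⟩ := hJf i hi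
    rw [hU, Finset.mem_product, Finset.mem_range]
    refine ⟨?_, Finset.mem_univ _⟩
    have hH0 : (0 : ℝ) < H := by exact_mod_cast hH
    have hq0 : (0 : ℝ) < nrm q := by exact_mod_cast nrm_one_le hq
    have h4 : (H : ℝ) * Real.log (nrm q) ≤ H * Real.log X := by
      apply mul_le_mul_of_nonneg_left _ hH0.le
      exact Real.log_le_log hq0 (by exact_mod_cast hqX)
    have h5 : ((⌊(H : ℝ) * Real.log (nrm q)⌋₊ : ℕ) : ℝ) < N :=
      (Nat.floor_le (mul_nonneg hH0.le (Real.log_natCast_nonneg _))).trans_lt (h4.trans_lt hN)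
    have h6 : bl H q < N := by
      unfold Pool.Agent.R426.QK.bl jj
      exact_mod_cast h5
    have h7 := ph_div H q
    have h8 : ph H q = i.1 := congrArg Prod.fst hqi
    rw [h8] at h7
    omega
  have hX0 : (0 : ℝ) ≤ X := Nat.cast_nonneg X
  have hC0 : (0 : ℝ) ≤ C := le_trans (by positivity) hC
  have hcU : ((U.powerset.filter fun J => J.card ≤ k).card : ℝ) ≤ (C * (N + 1) : ℝ) ^ k := by
    have h4 := card_sub U k
    have h5 : U.card = 4 * N * Fintype.card Q := by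
      rw [hU, Finset.card_product, Finset.card_range, Finset.card_univ]
    rw [h5] at h4
    have h6 : ((U.powerset.filter fun J => J.card ≤ k).card : ℝ) ≤
        ((4 * N * Fintype.card Q + 1 : ℕ) : ℝ) ^ k := by
      exact_mod_cast h4
    refine h6.trans ?_
    apply pow_le_pow_left₀ (by positivity)
    push_cast
    have hN0 : (0 : ℝ) ≤ N := Nat.cast_nonneg N
    have hq0 : (0 : ℝ) ≤ Fintype.card Q := Nat.cast_nonneg _
    nlinarith [mul_le_mul_of_nonneg_right hC hN0]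
  have hlogX : 0 ≤ 1 + Real.log X := by
    have := Real.log_natCast_nonneg X
    linarith
  calc ∑ k' ∈ T, (3 ^ (9 * k ^ 2) * κ) * (X * (1 / ((∏ p ∈ k'.1, nrm p : ℕ) : ℝ)))
      ≤ ∑ k' ∈ A ×ˢ (U.powerset.filter fun J => J.card ≤ k),
        (3 ^ (9 * k ^ 2) * κ) * (X * (1 / ((∏ p ∈ k'.1, nrm p : ℕ) : ℝ))) :=
        Finset.sum_le_sum_of_subset_of_nonneg hsub fun _ _ _ => by positivity
    _ = ((U.powerset.filter fun J => J.card ≤ k).card : ℝ) * ((3 ^ (9 * k ^ 2) * κ) *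
        (X * ∑ S ∈ A, 1 / ((∏ p ∈ S, nrm p : ℕ) : ℝ))) := by
        rw [Finset.sum_product]
        simp only [Finset.sum_const, nsmul_eq_mul]
        rw [← Finset.mul_sum, ← Finset.mul_sum, ← Finset.mul_sum]
    _ ≤ (C * (N + 1) : ℝ) ^ k * ((3 ^ (9 * k ^ 2) * κ) * (X * (64 * (1 + Real.log X)))) := by
        have h4 := sum_inv hX hAp
        have h5 : (0 : ℝ) ≤ ∑ S ∈ A, 1 / ((∏ p ∈ S, nrm p : ℕ) : ℝ) :=
          Finset.sum_nonneg fun _ _ => by positivity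
        gcongr
    _ = (C * (N + 1) : ℝ) ^ k * ((3 ^ (9 * k ^ 2) * 64) * κ) * (X * (1 + Real.log X)) := by ring
    _ ≤ (C * (N + 1) : ℝ) ^ k * (3 ^ (9 * k ^ 2 + 9) * κ) * (X * (1 + Real.log X)) := by
        have h6 : (3 : ℝ) ^ (9 * k ^ 2) * 64 ≤ 3 ^ (9 * k ^ 2 + 9) := by
          rw [pow_add]
          refine mul_le_mul_of_nonneg_left ?_ (by positivity)
          norm_num
        gcongr

end main

/-- **QT-KEY.** -/
theorem t_KEYC : S_KEYC := by
  rintro hR ⟨C₁, hC₁, hb1⟩ hE hB I I' Q _ _ _ E F hF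
  refine ⟨C₁ + (4 * (Fintype.card Q : ℝ) + 1), ?_, ?_⟩
  · have : (0 : ℝ) ≤ Fintype.card Q := Nat.cast_nonneg _
    linarith
  intro γ ε K hε hL X z H k N κ hX hH hz hκ h1 hN
  have h1' : C₁ ≤ κ ^ 24 * z := by
    have : (0 : ℝ) ≤ Fintype.card Q := Nat.cast_nonneg _
    linarith
  set T := (RgC γ E F X z H k).image (kyc γ z H) with hT
  have hfib : ∀ P : Finset RR → Prop, (((RgC γ E F X z H k).filter fun S => P S).card : ℝ) =
      ∑ k' ∈ T, (((RgC γ E F X z H k).filter fun S => kyc γ z H S = k' ∧ P S).card : ℝ) := by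
    intro P
    rw [Finset.card_eq_sum_card_fiberwise (f := kyc γ z H) (t := T) (by
      intro S hS
      rw [Finset.mem_coe, Finset.mem_filter] at hS
      exact Finset.mem_coe.2 (Finset.mem_image_of_mem _ hS.1))]
    push_cast
    refine Finset.sum_congr rfl fun k' _ => ?_
    congr 2
    ext S
    simp only [Finset.mem_filter]
    tauto
  have hall : ((RgC γ E F X z H k).card : ℝ) =
      ∑ k' ∈ T, (((RgC γ E F X z H k).filter fun S => kyc γ z H S = k' ∧ True).card : ℝ) := by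
    rw [Finset.card_eq_sum_card_fiberwise (f := kyc γ z H) (t := T) (by
      intro S hS
      exact Finset.mem_coe.2 (Finset.mem_image_of_mem _ hS))]
    push_cast
    exact Finset.sum_congr rfl fun k' _ => congrArg _ (fcc fun _ _ => by tauto)
  have q1 : (((RgC γ E F X z H k).filter fun S =>
      NdC K γ (sm z S) (la z S) ∧ GdC γ E S).card : ℝ) =
      ∑ k' ∈ T, (((RgC γ E F X z H k).filter fun S => kyc γ z H S = k' ∧
        (NdC K γ (sm z S) (la z S) ∧ GdC γ E S)).card : ℝ) :=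
    (congrArg _ (fcc fun _ _ => Iff.rfl)).trans
      ((hfib fun S => NdC K γ (sm z S) (la z S) ∧ GdC γ E S).trans
      (Finset.sum_congr rfl fun k' _ => congrArg _ (fcc fun _ _ => Iff.rfl)))
  rw [q1, hfib, Finset.mul_sum, ← Finset.sum_sub_distrib, hall, Finset.mul_sum]
  refine (Finset.abs_sum_le_sum_abs _ _).trans ?_
  have h3 : ∑ k' ∈ T, |(((RgC γ E F X z H k).filter fun S => kyc γ z H S = k' ∧
      (NdC K γ (sm z S) (la z S) ∧ GdC γ E S)).card : ℝ) -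
      c2 ^ Fintype.card I * (((RgC γ E F X z H k).filter fun S =>
      kyc γ z H S = k' ∧ NdC K γ (sm z S) (la z S)).card : ℝ)| ≤
      ∑ k' ∈ T, (ε * (((RgC γ E F X z H k).filter fun S =>
      kyc γ z H S = k' ∧ True).card : ℝ) +
      (3 ^ (9 * k ^ 2) * κ) * (X * (1 / ((∏ p ∈ k'.1, nrm p : ℕ) : ℝ)))) := by
    refine Finset.sum_le_sum fun k' hk => ?_
    obtain ⟨S₀, J⟩ := k'
    exact per_key hR hE hB hF hL hε hb1 hH hz hκ h1' hk
  refine h3.trans ?_
  rw [Finset.sum_add_distrib]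
  refine add_le_add (le_refl _) ?_
  exact keg_err hX hH hz hκ hN (by linarith) fun k' hk => hk

end Pool.Agent.N869.QT.KEYC
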