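import Pool.Agent.R426.QK.Fin
import Pool.Agent.R426.QJ.MOMJ
import Pool.Agent.N869.QT.BOXC
import Pool.Agent.N869.QT.KEYC
import Pool.Agent.N869.QT.CNTA
import Pool.Agent.N869.QT.ASYC
import Pool.Agent.N869.QT.FINR
import Pool.Agent.N86.QT.NST
import Pool.Agent.N124.QT.FBC
import Pool.Agent.N869.QT.L.LA1C
import Pool.Agent.N869.QT.L.LA3C
import Pool.Agent.N869.QT.L.LA4
import Pool.Agent.N869.QT.L.LA2C
import Pool.Agent.N869.QT.G.AVSQ
import Pool.Agent.N637.QT.MQ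

/-!
# Project QT (helper869): the assembly
-/

set_option autoImplicit false
set_option linter.unusedVariables false

open scoped Classical

namespace Pool.Agent.N869.QT

open Finset
open Pool.Agent.Y698 (RR)
open Pool.Agent.R426.QK

theorem t_MOMJ : L.S_MOMJ := Pool.Agent.R426.QJ.MOMJ.t_MOMJ

theorem t_LAC : L.S_LAC :=
  L.LA4.t_LA4C t_MOMJ L.LA1C.t_LA1C L.LA2C.t_LA2C L.LA3C.t_LA3C

theorem t_LOWA : S_LOWA := by
  obtain ⟨c, X₀, hc, h⟩ := LOW.t_LOW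
  refine ⟨c, X₀, hc, fun X hX => (h X hX).trans ?_⟩
  have : SS X ⊆ SA X := by
    intro S hS
    unfold SS at hS
    unfold SA
    rw [Finset.mem_filter] at hS ⊢
    exact ⟨hS.1, hS.2.2⟩
  exact_mod_cast Finset.card_le_card this

theorem t_ASYC : S_ASYC :=
  ASYC.t_ASYC recP t_BIL EQ.t_EQ t_LAC BOXC.t_BOXC KEYC.t_KEYC CNTA.t_CNTA t_HALL t_MERT Pool.Agent.N124.QT.t_FBC
    G.t_AV2 MOM.t_C2

theorem t_FEWC : S_FEWC := ASYC.t_FEWC recP CNTA.t_CNTA t_HALL t_MERT Pool.Agent.N124.QT.t_FBC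

theorem t_SQC : G.SQC SA Gd tt c2 := G.t_SQ RR SA Gd tt c2 t_ASYC

theorem t_MQC : G.MQ SA Gd tt c2 := Pool.Agent.N637.QT.MQ.t_MQ RR SA Gd tt c2 t_SQC t_FEWC

theorem t_FINR : S_FINR := FINR.t_FINR t_MQC Pool.Agent.N86.QT.t_NST MOM.t_C2

end Pool.Agent.N869.QT
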