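import Pool.Agent.R426.QM.Top
import Pool.Agent.R426.QM.Cls
import Pool.Agent.N869.QT.FStm

/-!
# Project QT (helper869): conductors and tuples over the field `K = ℚ(√-7)`
-/

set_option autoImplicit false
set_option linter.unusedVariables false
set_option linter.unusedSectionVars false

open scoped Classical

namespace Pool.Agent.N869.QT.TRK

open NumberField IsDedekindDomain
open Pool.Agent.Y698
open Pool.Agent.Y698.SG hiding PD
open Pool.Agent.R426
open Pool.Agent.R426.QC (em em_apply em_ne)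
open Pool.Agent.R426.QK (nrm ClsE PS PD Pq mem_PD PS_prod exists_PP not_dvd_of_prm absNorm_e r4_unit'
  not_aR two_eq prime_aR prime_cjaR eq_one_of_prm prm_ne_zero QB mem_QB norm_le_of_dvd c2 tt
  Gd S_C2)
open Pool.Agent.R426.QD (r4)
open Pool.Agent.R426.QM (InCl indR_of)
open Pool.Agent.Results.MP_e996df_nt.TwoPartTwistsX49 (TwoPart curve exists_e cls_e sqf_e good_e)
open Pool.Agent.N869.QT
open Pool.Agent.N869.QT.G (sys exC pr Qn ET)

theorem cop14 {x : RR} : IsCoprime x 14 ↔ ¬ aR ∣ x ∧ ¬ cj aR ∣ x ∧ ¬ fR ∣ x := by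
  have h14 : (14 : RR) = -(aR * cj aR * (fR * fR)) := by
    have h1 : fR * fR = -7 := by rw [← pow_two, fR_sq]
    rw [h1, ← two_eq]
    norm_num
  rw [h14, IsCoprime.neg_right_iff, IsCoprime.mul_right_iff, IsCoprime.mul_right_iff,
    IsCoprime.mul_right_iff, and_self, and_assoc]
  have h : ∀ p : RR, Prime p → (IsCoprime x p ↔ ¬ p ∣ x) := fun p hp => by
    rw [isCoprime_comm]
    exact hp.irreducible.coprime_iff_not_dvd
  rw [h _ prime_aR, h _ prime_cjaR, h _ QK.prime_fR]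

variable {K : Type} [Field K] [NumberField K]

/-- the conductors -/
def condK (K : Type) [Field K] [NumberField K] (X : ℕ) : Set (Ideal (𝓞 K)) :=
  {𝔣 | Squarefree 𝔣 ∧ IsCoprime 𝔣 (Ideal.span {14}) ∧ Ideal.absNorm 𝔣 ≤ X}

/-- the conductor of a set of primary primes -/
noncomputable def fS (e : RR ≃+* 𝓞 K) (S : Finset RR) : Ideal (𝓞 K) :=
  Ideal.span {e (∏ π ∈ S, π)}

theorem princ (e : RR ≃+* 𝓞 K) (I : Ideal (𝓞 K)) : ∃ y : RR, I = Ideal.span {e y} := by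
  obtain ⟨x, hx⟩ := (IsPrincipalIdealRing.principal (I.comap (e : RR →+* 𝓞 K))).principal
  refine ⟨x, ?_⟩
  have h1 : I.comap (e : RR →+* 𝓞 K) = Ideal.span {x} := hx
  have h2 := Ideal.map_comap_of_surjective (e : RR →+* 𝓞 K) e.surjective I
  rw [h1, Ideal.map_span, Set.image_singleton] at h2
  exact h2.symm

theorem sqf_span (e : RR ≃+* 𝓞 K) (y : RR) :
    Squarefree (Ideal.span {e y} : Ideal (𝓞 K)) ↔ Squarefree y := by
  constructor
  · intro h z hz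
    have h1 : Ideal.span {e z} * Ideal.span {e z} ∣ (Ideal.span {e y} : Ideal (𝓞 K)) := by
      rw [Ideal.span_singleton_mul_span_singleton, Ideal.dvd_span_singleton,
        Ideal.mem_span_singleton, ← map_mul, map_dvd_iff e]
      exact hz
    have h2 := h _ h1
    rw [Ideal.isUnit_iff, Ideal.span_singleton_eq_top] at h2
    exact (isUnit_map_iff e z).1 h2
  · intro h J hJ
    obtain ⟨z, rfl⟩ := princ e J
    rw [Ideal.span_singleton_mul_span_singleton, Ideal.dvd_span_singleton,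
        Ideal.mem_span_singleton, ← map_mul, map_dvd_iff e] at hJ
    have h2 := h _ hJ
    rw [Ideal.isUnit_iff, Ideal.span_singleton_eq_top]
    exact (isUnit_map_iff e z).2 h2

theorem cop_span (e : RR ≃+* 𝓞 K) (y : RR) :
    IsCoprime (Ideal.span {e y} : Ideal (𝓞 K)) (Ideal.span {14}) ↔ IsCoprime y 14 := by
  rw [Ideal.isCoprime_span_singleton_iff]
  constructor
  · intro h
    have h1 := h.map (e.symm : 𝓞 K →+* RR)
    have h2 : (e.symm : 𝓞 K →+* RR) (e y) = y := e.symm_apply_apply y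
    have h3 : (e.symm : 𝓞 K →+* RR) 14 = 14 := map_ofNat _ 14
    rw [h2, h3] at h1
    exact h1
  · intro h
    have h1 := h.map (e : RR →+* 𝓞 K)
    have h3 : (e : RR →+* 𝓞 K) 14 = 14 := map_ofNat _ 14
    rw [h3] at h1
    exact h1

theorem memSA {X : ℕ} {S : Finset RR} : S ∈ SA X ↔ (∀ π ∈ S, Pq π) ∧ nrm (∏ π ∈ S, π) ≤ X := by
  unfold SA
  rw [Finset.mem_filter, Finset.mem_powerset, QK.NS.nrm_prod]
  constructor
  · exact fun h => ⟨fun π hπ => (mem_QB.1 (h.1 hπ)).2, h.2⟩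
  · intro h
    refine ⟨fun p hp => ?_, h.2⟩
    rw [mem_QB]
    have h1 : nrm p ≤ ∏ q ∈ S, nrm q :=
      Finset.single_le_prod' (f := fun q => nrm q)
        (fun q hq => QK.nrm_pos' (QK.pq_ne (h.1 q hq))) hp
    exact ⟨h1.trans h.2, h.1 p hp⟩

theorem mem_cond (e : RR ≃+* 𝓞 K) {X : ℕ} {𝔣 : Ideal (𝓞 K)} :
    𝔣 ∈ condK K X ↔ ∃ S ∈ SA X, fS e S = 𝔣 := by
  constructor
  · rintro ⟨h1, h2, h3⟩
    obtain ⟨y, rfl⟩ := princ e 𝔣
    rw [sqf_span] at h1
    rw [cop_span, cop14] at h2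
    rw [absNorm_e] at h3
    obtain ⟨x, hx, hxy⟩ : ∃ x : RR, PS x ∧ (x = y ∨ x = -y) := by
      rcases r4_unit' h2.1 with h4 | h4
      · exact ⟨y, ⟨⟨h4, h2.2.1, h2.2.2⟩, h1⟩, Or.inl rfl⟩
      · refine ⟨-y, ⟨⟨?_, fun h => h2.2.1 ((dvd_neg).1 h), fun h => h2.2.2 ((dvd_neg).1 h)⟩, ?_⟩,
          Or.inr rfl⟩
        · rw [map_neg, h4]
          decide
        · exact fun z hz => h1 z ((dvd_neg).1 hz)
    have hsp : (Ideal.span {e x} : Ideal (𝓞 K)) = Ideal.span {e y} := by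
      rcases hxy with rfl | rfl
      · rfl
      · rw [map_neg, Ideal.span_singleton_neg]
    have hn : nrm x = nrm y := by
      rw [← absNorm_e e, ← absNorm_e e, hsp]
    refine ⟨PD x, memSA.2 ⟨fun π hπ => ((mem_PD hx.ne).1 hπ).1, ?_⟩, ?_⟩
    · rw [hx.prod, hn]
      exact h3
    · unfold fS
      rw [hx.prod, hsp]
  · rintro ⟨S, hS, rfl⟩
    obtain ⟨h1, h2⟩ := memSA.1 hS
    obtain ⟨h3, h4⟩ := PS_prod h1
    unfold fS
    refine ⟨(sqf_span e _).2 h3.sqf, (cop_span e _).2 (cop14.2 ⟨not_aR h3.prm, h3.prm.cop2,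
      h3.prm.cop7⟩), ?_⟩
    rw [absNorm_e]
    exact h2

theorem fS_inj (e : RR ≃+* 𝓞 K) {S S' : Finset RR} (h : ∀ π ∈ S, Pq π) (h' : ∀ π ∈ S', Pq π)
    (hf : fS e S = fS e S') : S = S' := by
  obtain ⟨h1, h2⟩ := PS_prod h
  obtain ⟨h3, h4⟩ := PS_prod h'
  have h5 : ∏ π ∈ S', π = ∏ π ∈ S, π := by
    unfold fS at hf
    rw [Ideal.span_singleton_eq_span_singleton] at hf
    obtain ⟨u, hu⟩ := hf
    have hu' : (∏ π ∈ S, π) * e.symm (u : 𝓞 K) = ∏ π ∈ S', π := by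
      have := congrArg e.symm hu
      rw [map_mul, e.symm_apply_apply, e.symm_apply_apply] at this
      exact this
    have hun : IsUnit (e.symm (u : 𝓞 K)) := (isUnit_map_iff e.symm _).2 u.isUnit
    have hp := QK.prm_cancel h1.prm (by rw [hu']; exact h3.prm)
    rw [eq_one_of_prm hp hun, mul_one] at hu'
    exact hu'.symm
  rw [← h2, ← h4, h5]

/-- the count of the conductors -/
theorem ncard_cond (e : RR ≃+* 𝓞 K) (X : ℕ) (P : Ideal (𝓞 K) → Prop) :
    {𝔣 ∈ condK K X | P 𝔣}.ncard = ((SA X).filter fun S => P (fS e S)).card := by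
  have h1 : {𝔣 ∈ condK K X | P 𝔣} =
      fS e '' (((SA X).filter fun S => P (fS e S) : Finset (Finset RR)) : Set (Finset RR)) := by
    ext 𝔣
    rw [Set.mem_image]
    constructor
    · rintro ⟨h2, h3⟩
      obtain ⟨S, hS, rfl⟩ := (mem_cond e).1 h2
      exact ⟨S, by rw [Finset.mem_coe, Finset.mem_filter]; exact ⟨hS, h3⟩, rfl⟩
    · rintro ⟨S, hS, rfl⟩
      rw [Finset.mem_coe, Finset.mem_filter] at hS
      exact ⟨(mem_cond e).2 ⟨S, hS.1, rfl⟩, hS.2⟩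
  rw [h1, Set.InjOn.ncard_image, Set.ncard_coe_finset]
  intro S hS S' hS' h
  rw [Finset.mem_coe, Finset.mem_filter] at hS hS'
  exact fS_inj e (memSA.1 hS.1).1 (memSA.1 hS'.1).1 h

/-- the tuples of conductor `𝔣` -/
def tupK (a : 𝓞 K) (n : ℕ) (𝔣 : Ideal (𝓞 K)) : Set (Fin n → 𝓞 K) :=
  {d | (∀ i, InCl a (d i)) ∧
    (∀ T : Finset (Fin n), T.Nonempty → ¬ IsSquare (∏ i ∈ T, ((d i : 𝓞 K) : K))) ∧
    ∀ v : HeightOneSpectrum (𝓞 K), 𝔣 ≤ v.asIdeal ↔ ∃ i, d i ∈ v.asIdeal}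

/-- the twists in `𝒯` are good -/
def goK (a : 𝓞 K) {n : ℕ} (𝒯 : Finset (Finset (Fin n))) (d : Fin n → 𝓞 K) : Prop :=
  ∀ T ∈ 𝒯, ∀ N c : 𝓞 K, InCl a N → c ≠ 0 → ∏ i ∈ T, d i = N * c ^ 2 → TwoPart (curve (N : K))

theorem ind_iff (e : RR ≃+* 𝓞 K) {n : ℕ} (x : Fin n → RR) :
    (∀ T : Finset (Fin n), T.Nonempty → ¬ IsSquare (∏ i ∈ T, ((e (x i) : 𝓞 K) : K))) ↔ IndR x := by
  constructor
  · intro h
    have h1 := indR_of e (d := fun i => e (x i)) h
    simp only [e.symm_apply_apply] at h1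
    exact h1
  · rintro h T hT ⟨k, hk⟩
    obtain ⟨u, v, hv, huv⟩ := IsFractionRing.div_surjective (A := 𝓞 K) k
    have hv0 : v ≠ 0 := nonZeroDivisors.ne_zero hv
    have hvK : algebraMap (𝓞 K) K v ≠ 0 :=
      (map_ne_zero_iff _ (FaithfulSMul.algebraMap_injective _ _)).2 hv0
    have h1 : v ^ 2 * ∏ i ∈ T, e (x i) = u ^ 2 := by
      apply FaithfulSMul.algebraMap_injective (𝓞 K) K
      rw [map_mul, map_pow, map_prod, map_pow]
      have h2 : ∏ i ∈ T, algebraMap (𝓞 K) K (e (x i)) = k * k := hk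
      rw [h2, ← huv]
      field_simp
    have h3 := congrArg e.symm h1
    rw [map_mul, map_pow, map_prod, map_pow] at h3
    simp only [e.symm_apply_apply] at h3
    exact h T hT (e.symm u) (e.symm v) ((map_ne_zero_iff e.symm e.symm.injective).2 hv0) h3

theorem pr_iff (e : RR ≃+* 𝓞 K) {n : ℕ} {S : Finset RR} (hS : ∀ π ∈ S, Pq π) {x : Fin n → RR}
    (hx : ∀ i, ClsE (x i)) :
    (∀ v : HeightOneSpectrum (𝓞 K), fS e S ≤ v.asIdeal ↔ ∃ i, e (x i) ∈ v.asIdeal) ↔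
      ∀ π : RR, Pq π → (π ∈ S ↔ ∃ i, π ∣ x i) := by
  obtain ⟨h1, h2⟩ := PS_prod hS
  have hmem : ∀ π : RR, Pq π → (π ∣ ∏ ρ ∈ S, ρ ↔ π ∈ S) := fun π hπ => by
    conv_rhs => rw [← h2]
    rw [mem_PD h1.ne]
    exact ⟨fun h => ⟨hπ, h⟩, fun h => h.2⟩
  constructor
  · intro h π hπ
    have hpr : Prime (e π) := (MulEquiv.prime_iff e.toMulEquiv).2 hπ.prime
    let v : HeightOneSpectrum (𝓞 K) :=
      ⟨Ideal.span {e π}, (Ideal.span_singleton_prime hpr.ne_zero).2 hpr,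
        fun h => hpr.ne_zero (Ideal.span_singleton_eq_bot.1 h)⟩
    have h3 := h v
    have h4 : fS e S ≤ v.asIdeal ↔ π ∈ S := by
      show (Ideal.span {e (∏ π ∈ S, π)} : Ideal (𝓞 K)) ≤ Ideal.span {e π} ↔ _
      rw [Ideal.span_singleton_le_span_singleton, map_dvd_iff e, hmem π hπ]
    have h5 : ∀ i, e (x i) ∈ v.asIdeal ↔ π ∣ x i := fun i => by
      show e (x i) ∈ (Ideal.span {e π} : Ideal (𝓞 K)) ↔ _
      rw [Ideal.mem_span_singleton, map_dvd_iff e]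
    rw [← h4, h3]
    exact exists_congr h5
  · intro h v
    obtain ⟨q, hq⟩ := princ e v.asIdeal
    have hq0 : e q ≠ 0 := by
      intro h0
      apply v.ne_bot
      rw [hq, h0]
      exact Ideal.span_singleton_eq_bot.2 rfl
    have hqp : Prime q := by
      have h3 := v.isPrime
      rw [hq, Ideal.span_singleton_prime hq0] at h3
      exact (MulEquiv.prime_iff e.toMulEquiv).1 h3
    have h4 : fS e S ≤ v.asIdeal ↔ q ∣ ∏ π ∈ S, π := by
      rw [hq]
      unfold fS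
      rw [Ideal.span_singleton_le_span_singleton, map_dvd_iff e]
    have h5 : ∀ i, e (x i) ∈ v.asIdeal ↔ q ∣ x i := fun i => by
      rw [hq, Ideal.mem_span_singleton, map_dvd_iff e]
    rw [h4]
    constructor
    · intro h6
      obtain ⟨k1, k2, k3⟩ := not_dvd_of_prm h6 h1.prm
      obtain ⟨π, hπ, hass⟩ := exists_PP hqp k1 k2 k3
      obtain ⟨i, hi⟩ := (h π hπ).1 ((hmem π hπ).1 (hass.dvd.trans h6))
      exact ⟨i, (h5 i).2 (hass.symm.dvd.trans hi)⟩
    · rintro ⟨i, hi⟩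
      rw [h5 i] at hi
      obtain ⟨π, hπ, hass⟩ := QM.Cls.ex_pq (hx i) hqp hi
      have h6 := (h π hπ).2 ⟨i, hass.dvd.trans hi⟩
      exact hass.symm.dvd.trans ((hmem π hπ).2 h6)

theorem mem_tup (e : RR ≃+* 𝓞 K) {a : 𝓞 K} (hef : e fR = 2 * a - 1) {n : ℕ} {S : Finset RR}
    (hS : ∀ π ∈ S, Pq π) (x : Fin n → RR) :
    (fun i => e (x i)) ∈ tupK a n (fS e S) ↔ x ∈ TupR n S := by
  unfold tupK TupR
  rw [Set.mem_ofPred_eq, Set.mem_ofPred_eq]
  have h1 : (∀ i, InCl a (e (x i))) ↔ ∀ i, ClsE (x i) := forall_congr' fun i => cls_e e hef (x i)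
  rw [h1]
  refine and_congr_right fun hx => ?_
  rw [ind_iff e x, pr_iff e hS hx]

theorem mem_go (e : RR ≃+* 𝓞 K) {a : 𝓞 K} (ha : a ^ 2 = a - 2) (hK : Module.finrank ℚ K = 2)
    (hea : e aR = a) (hef : e fR = 2 * a - 1) {n : ℕ} (𝒯 : Finset (Finset (Fin n)))
    (h𝒯 : ∀ T ∈ 𝒯, T.Nonempty) (x : Fin n → RR) :
    goK a 𝒯 (fun i => e (x i)) ↔ GoR (𝒯.subtype fun q => q.Nonempty) x := by
  unfold goK GoR
  constructor
  · intro h T hT N c hN hc h1
    have h2 := h T.1 (Finset.mem_subtype.1 hT) (e N) (e c) ((cls_e e hef N).2 hN)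
      ((map_ne_zero_iff e e.injective).2 hc) (by
        have h3 := congrArg e h1
        rw [map_mul, map_prod, map_pow] at h3
        exact h3)
    exact ((good_e e ha hK hea hef N).1 ⟨(cls_e e hef N).2 hN, h2⟩).2
  · intro h T hT N c hN hc h1
    have hN' : ClsE (e.symm N) := (cls_e e hef _).1 (by rw [e.apply_symm_apply]; exact hN)
    have h2 := h ⟨T, h𝒯 T hT⟩ (Finset.mem_subtype.2 hT) (e.symm N) (e.symm c) hN'
      ((map_ne_zero_iff e.symm e.symm.injective).2 hc) (by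
        have h3 := congrArg e.symm h1
        rw [map_mul, map_prod, map_pow] at h3
        simp only [e.symm_apply_apply] at h3
        exact h3)
    have h4 := ((good_e e ha hK hea hef (e.symm N)).2 ⟨hN', h2⟩).2
    rwa [e.apply_symm_apply] at h4

/-- the count of the tuples -/
theorem ncard_tup (e : RR ≃+* 𝓞 K) {a : 𝓞 K} (hef : e fR = 2 * a - 1) {n : ℕ} {S : Finset RR}
    (hS : ∀ π ∈ S, Pq π) (P : (Fin n → 𝓞 K) → Prop) (P' : (Fin n → RR) → Prop)
    (hP : ∀ x, P (fun i => e (x i)) ↔ P' x) :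
    {d ∈ tupK a n (fS e S) | P d} = (fun x i => e (x i)) '' {x ∈ TupR n S | P' x} := by
  ext d
  rw [Set.mem_image]
  constructor
  · rintro ⟨h1, h2⟩
    refine ⟨fun i => e.symm (d i), ⟨?_, ?_⟩, ?_⟩
    · rw [← mem_tup e hef hS]
      simp only [e.apply_symm_apply]
      exact h1
    · rw [← hP]
      simp only [e.apply_symm_apply]
      exact h2
    · funext i
      exact e.apply_symm_apply (d i)
  · rintro ⟨x, ⟨h1, h2⟩, rfl⟩
    exact ⟨(mem_tup e hef hS x).2 h1, (hP x).2 h2⟩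

theorem inj_e (e : RR ≃+* 𝓞 K) (n : ℕ) :
    Function.Injective (fun (x : Fin n → RR) (i : Fin n) => e (x i)) := by
  intro x y h
  funext i
  exact e.injective (congrFun h i)

/-- **the statement over `K`** -/
theorem main (hF : S_FINR) (hLo : S_LOWA) {a : 𝓞 K} (ha : a ^ 2 = a - 2)
    (hK : Module.finrank ℚ K = 2) {n : ℕ} (hn : 2 ≤ n) (𝒯 : Finset (Finset (Fin n)))
    (h𝒯 : ∀ T ∈ 𝒯, T.Nonempty) {δ : ℝ} (hδ : 0 < δ) :
    Filter.Tendsto (fun X : ℕ => ({𝔣 ∈ condK K X | (tupK a n 𝔣).Finite ∧ 0 < (tupK a n 𝔣).ncard ∧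
        |({d ∈ tupK a n 𝔣 | goK a 𝒯 d}.ncard : ℝ) / ((tupK a n 𝔣).ncard : ℝ) -
          c2 ^ 𝒯.card| ≤ δ}.ncard : ℝ) / ((condK K X).ncard : ℝ)) Filter.atTop (nhds 1) := by
  obtain ⟨e, hea, hef⟩ := exists_e ha hK
  obtain ⟨c, X₁, hc, hlow⟩ := hLo
  set 𝒯' : Finset (Qn n) := 𝒯.subtype fun q => q.Nonempty with h𝒯'
  have hcard : 𝒯'.card = 𝒯.card := by
    rw [h𝒯', Finset.card_subtype, Finset.filter_true_of_mem h𝒯]
  set P : Ideal (𝓞 K) → Prop := fun 𝔣 => (tupK a n 𝔣).Finite ∧ 0 < (tupK a n 𝔣).ncard ∧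
    |({d ∈ tupK a n 𝔣 | goK a 𝒯 d}.ncard : ℝ) / ((tupK a n 𝔣).ncard : ℝ) -
      c2 ^ 𝒯.card| ≤ δ with hP
  have e1 : ∀ S : Finset RR, (∀ π ∈ S, Pq π) → (P (fS e S) ↔ ((TupR n S).Finite ∧
      0 < (TupR n S).ncard ∧ |({x ∈ TupR n S | GoR 𝒯' x}.ncard : ℝ) / ((TupR n S).ncard : ℝ) -
        c2 ^ 𝒯'.card| ≤ δ)) := by
    intro S hS
    have h1 : tupK a n (fS e S) = (fun x i => e (x i)) '' TupR n S := by
      have h2 := ncard_tup (n := n) e hef hS (fun _ => True) (fun _ => True) (fun _ => Iff.rfl)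
      simp only [and_true, Set.ofPred_mem_eq] at h2
      exact h2
    have h2 := ncard_tup e hef hS (goK a 𝒯) (GoR 𝒯') (fun x => mem_go e ha hK hea hef 𝒯 h𝒯 x)
    rw [hP]
    simp only
    rw [h2, h1, Set.ncard_image_of_injective _ (inj_e e n),
      Set.ncard_image_of_injective _ (inj_e e n), hcard,
      Set.finite_image_iff ((inj_e e n).injOn)]
  have e2 : ∀ X : ℕ, ({𝔣 ∈ condK K X | P 𝔣}.ncard : ℝ) = ((SA X).card : ℝ) -
      (((SA X).filter fun S => ¬ ((TupR n S).Finite ∧ 0 < (TupR n S).ncard ∧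
        |({x ∈ TupR n S | GoR 𝒯' x}.ncard : ℝ) / ((TupR n S).ncard : ℝ) -
          c2 ^ 𝒯'.card| ≤ δ)).card : ℝ) := by
    intro X
    have h3 : ((SA X).filter fun S => P (fS e S)).card =
        ((SA X).filter fun S => ((TupR n S).Finite ∧ 0 < (TupR n S).ncard ∧
        |({x ∈ TupR n S | GoR 𝒯' x}.ncard : ℝ) / ((TupR n S).ncard : ℝ) -
          c2 ^ 𝒯'.card| ≤ δ)).card := by
      congr 1
      exact Finset.filter_congr fun S hS => e1 S (memSA.1 hS).1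
    have h4 : {𝔣 ∈ condK K X | P 𝔣}.ncard =
        ((SA X).filter fun S => ((TupR n S).Finite ∧ 0 < (TupR n S).ncard ∧
        |({x ∈ TupR n S | GoR 𝒯' x}.ncard : ℝ) / ((TupR n S).ncard : ℝ) -
          c2 ^ 𝒯'.card| ≤ δ)).card := by
      refine Eq.trans (ncard_cond e X P) (Eq.trans ?_ h3)
      congr!
    rw [h4, eq_sub_iff_add_eq]
    norm_cast
    exact Finset.card_filter_add_card_filter_not _
  have e3 : ∀ X : ℕ, ((condK K X).ncard : ℝ) = ((SA X).card : ℝ) := by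
    intro X
    have h3 := ncard_cond e X (fun _ => True)
    simp only [and_true, Set.ofPred_mem_eq, Finset.filter_true] at h3
    exact_mod_cast h3
  rw [Metric.tendsto_nhds]
  intro ε hε
  obtain ⟨X₀, h0⟩ := hF n hn 𝒯' δ (c * (ε / 2)) hδ (by positivity)
  filter_upwards [Filter.eventually_ge_atTop X₀, Filter.eventually_ge_atTop X₁,
    Filter.eventually_ge_atTop 1] with X hX0 hX1 hX2
  have h1 := h0 X hX0
  have h2 := hlow X hX1
  have hXp : (0 : ℝ) < X := by exact_mod_cast hX2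
  have hpos : (0 : ℝ) < ((SA X).card : ℝ) := lt_of_lt_of_le (by positivity) h2
  rw [e2, e3, Real.dist_eq, sub_div, div_self hpos.ne', sub_sub_cancel_left, abs_neg,
    abs_of_nonneg (by positivity), div_lt_iff₀ hpos]
  refine lt_of_le_of_lt h1 ?_
  calc c * (ε / 2) * X = ε / 2 * (c * X) := by ring
    _ ≤ ε / 2 * ((SA X).card : ℝ) := by gcongr
    _ < ε * ((SA X).card : ℝ) := by nlinarith

/-- the norm-ordered lower bound of the number of the conductors -/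
theorem cond_low (hLo : S_LOWA) {a : 𝓞 K} (ha : a ^ 2 = a - 2)
    (hK : Module.finrank ℚ K = 2) :
    ∃ c : ℝ, 0 < c ∧ ∀ᶠ X : ℕ in Filter.atTop, c * X ≤ ((condK K X).ncard : ℝ) := by
  obtain ⟨e, hea, hef⟩ := exists_e ha hK
  obtain ⟨c, X₁, hc, hlow⟩ := hLo
  refine ⟨c, hc, ?_⟩
  filter_upwards [Filter.eventually_ge_atTop X₁] with X hX
  have h3 := ncard_cond e X (fun _ => True)
  simp only [and_true, Set.ofPred_mem_eq, Finset.filter_true] at h3
  rw [h3]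
  exact hlow X hX

end Pool.Agent.N869.QT.TRK
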